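import Mathlib

/-!
Cocycles on a subgroup of index two: corestriction, and descent of coboundaries up to a factor two.
-/

set_option autoImplicit false
set_option linter.all false

namespace Pool.Agent.H571.BC

theorem em_apply {M : Type*} [AddCommGroup M] (a b : AddMonoid.End M) (x : M) :
    (a * b) x = a (b x) := rfl

section abs

variable {G M : Type*} [Group G] [AddCommGroup M]

/-- `H2` is contained in `H1` and has index one or two. -/
structure Par (H1 H2 : Subgroup G) : Prop where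
  le : H2 ≤ H1
  mul : ∀ σ ∈ H1, ∀ τ ∈ H1, (σ * τ ∈ H2 ↔ (σ ∈ H2 ↔ τ ∈ H2))

variable {ρ : G →* AddMonoid.End M} {H1 H2 : Subgroup G}

theorem Par.inv_mul (h : Par H1 H2) {g σ : G} (hg1 : g ∈ H1) (hg2 : g ∉ H2) (hσ : σ ∈ H1)
    (hσ2 : σ ∉ H2) : g⁻¹ * σ ∈ H2 := by
  rw [h.mul _ (H1.inv_mem hg1) _ hσ, H2.inv_mem_iff]
  exact iff_of_false hg2 hσ2

theorem Par.mul_out (h : Par H1 H2) {g σ : G} (hg1 : g ∈ H1) (hg2 : g ∉ H2) (hσ : σ ∈ H1)
    (hσ2 : σ ∉ H2) : σ * g ∈ H2 := by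
  rw [h.mul _ hσ _ hg1]
  exact iff_of_false hσ2 hg2

theorem Par.conj (h : Par H1 H2) {g σ : G} (hg1 : g ∈ H1) (hσ : σ ∈ H2) :
    g⁻¹ * σ * g ∈ H2 := by
  have h1 := h.le hσ
  have h2 := H1.inv_mem hg1
  rw [h.mul _ (H1.mul_mem h2 h1) _ hg1, h.mul _ h2 _ h1, H2.inv_mem_iff]
  tauto

/-- A cocycle which is a coboundary on a subgroup of index two is a coboundary up to a factor two. -/
theorem dbl (h : Par H1 H2) {f : G → M} (hf : ∀ σ ∈ H1, ∀ τ ∈ H1, f (σ * τ) = f σ + ρ σ (f τ))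
    {R : M} (hR : ∀ σ ∈ H2, f σ = ρ σ R - R) {g : G} (hg1 : g ∈ H1) (hg2 : g ∉ H2) {σ : G}
    (hσ : σ ∈ H1) : (2 : ℕ) • f σ = ρ σ (2 • R - (f g - (ρ g R - R))) -
      (2 • R - (f g - (ρ g R - R))) := by
  have key : ∀ x ∈ H2, ρ x (f g - (ρ g R - R)) = f g - (ρ g R - R) := by
    intro x hx
    have e1 := hf x (h.le hx) g hg1
    have hc := h.conj hg1 hx
    have e2 := hf g hg1 (g⁻¹ * x * g) (h.le hc)
    have e3 : g * (g⁻¹ * x * g) = x * g := by group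
    rw [hR _ hc, map_sub, ← em_apply (ρ g), ← map_mul, e3, e1, hR x hx] at e2
    rw [map_sub, map_sub, ← em_apply (ρ x), ← map_mul]
    have e4 : ρ x (f g) = f g + (ρ (x * g) R - ρ g R) - (ρ x R - R) := by
      rw [← e2]; abel
    rw [e4]
    abel
  have key2 : ρ g (f g - (ρ g R - R)) = - (f g - (ρ g R - R)) := by
    have e1 := hf g hg1 g hg1
    have hgg : g * g ∈ H2 := h.mul_out hg1 hg2 hg1 hg2
    rw [hR _ hgg, map_mul, em_apply] at e1
    rw [map_sub, map_sub]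
    have e2 : ρ g (f g) = ρ g (ρ g R) - R - f g := by rw [e1]; abel
    rw [e2]
    abel
  by_cases hσ2 : σ ∈ H2
  · rw [map_sub, key σ hσ2, hR σ hσ2, map_nsmul, smul_sub]
    abel
  · have hin := h.inv_mul hg1 hg2 hσ hσ2
    have e1 := hf g hg1 (g⁻¹ * σ) (h.le hin)
    rw [mul_inv_cancel_left, hR _ hin, map_sub, ← em_apply (ρ g), ← map_mul,
      mul_inv_cancel_left] at e1
    have e2 : ρ σ (f g - (ρ g R - R)) = - (f g - (ρ g R - R)) := by
      have : σ = g * (g⁻¹ * σ) := by group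
      rw [this, map_mul, em_apply, key _ hin, key2]
    rw [map_sub, e2, e1, map_nsmul, two_nsmul, two_nsmul, two_nsmul]
    abel

open scoped Classical in
/-- The corestriction of a cocycle `f` from `H2` to `H1`. -/
noncomputable def corA (ρ : G →* AddMonoid.End M) (H2 : Subgroup G) (g : G) (f : G → M) (σ : G) : M :=
  if σ ∈ H2 then f σ + ρ g (f (g⁻¹ * σ * g)) else ρ g (f (g⁻¹ * σ)) + f (σ * g)

theorem corA_in {g : G} {f : G → M} {σ : G} (h : σ ∈ H2) :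
    corA ρ H2 g f σ = f σ + ρ g (f (g⁻¹ * σ * g)) := if_pos h

theorem corA_out {g : G} {f : G → M} {σ : G} (h : σ ∉ H2) :
    corA ρ H2 g f σ = ρ g (f (g⁻¹ * σ)) + f (σ * g) := if_neg h

theorem corA_mul (h : Par H1 H2) {f : G → M}
    (hf : ∀ σ ∈ H2, ∀ τ ∈ H2, f (σ * τ) = f σ + ρ σ (f τ)) {g : G} (hg1 : g ∈ H1)
    (hg2 : g ∉ H2) : ∀ σ ∈ H1, ∀ τ ∈ H1,
      corA ρ H2 g f (σ * τ) = corA ρ H2 g f σ + ρ σ (corA ρ H2 g f τ) := by
  intro σ hσ τ hτ
  by_cases h1 : σ ∈ H2 <;> by_cases h2 : τ ∈ H2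
  · have h3 : σ * τ ∈ H2 := H2.mul_mem h1 h2
    rw [corA_in h1, corA_in h2, corA_in h3, hf σ h1 τ h2]
    have e1 : g⁻¹ * (σ * τ) * g = (g⁻¹ * σ * g) * (g⁻¹ * τ * g) := by group
    have e2 : g * (g⁻¹ * σ * g) = σ * g := by group
    rw [e1, hf _ (h.conj hg1 h1) _ (h.conj hg1 h2), map_add, map_add,
      ← em_apply (ρ g), ← map_mul, e2, map_mul, em_apply]
    abel
  · have h3 : σ * τ ∉ H2 := by
      rw [h.mul _ hσ _ hτ]; tauto
    rw [corA_in h1, corA_out h2, corA_out h3]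
    have e1 : g⁻¹ * (σ * τ) = (g⁻¹ * σ * g) * (g⁻¹ * τ) := by group
    have e2 : g * (g⁻¹ * σ * g) = σ * g := by group
    rw [e1, hf _ (h.conj hg1 h1) _ (h.inv_mul hg1 hg2 hτ h2), mul_assoc σ τ g,
      hf _ h1 _ (h.mul_out hg1 hg2 hτ h2), map_add, map_add,
      ← em_apply (ρ g), ← map_mul, e2, map_mul, em_apply]
    abel
  · have h3 : σ * τ ∉ H2 := by
      rw [h.mul _ hσ _ hτ]; tauto
    rw [corA_out h1, corA_in h2, corA_out h3]
    have e1 : g⁻¹ * (σ * τ) = (g⁻¹ * σ) * τ := by group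
    have e2 : σ * τ * g = (σ * g) * (g⁻¹ * τ * g) := by group
    have e3 : g * (g⁻¹ * σ) = σ := by group
    rw [e1, hf _ (h.inv_mul hg1 hg2 hσ h1) _ h2, e2,
      hf _ (h.mul_out hg1 hg2 hσ h1) _ (h.conj hg1 h2), map_add, map_add,
      ← em_apply (ρ g), ← map_mul, e3, map_mul, em_apply]
    abel
  · have h3 : σ * τ ∈ H2 := by
      rw [h.mul _ hσ _ hτ]; tauto
    rw [corA_out h1, corA_out h2, corA_in h3]
    have e1 : g⁻¹ * (σ * τ) * g = (g⁻¹ * σ) * (τ * g) := by group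
    have e2 : σ * τ = (σ * g) * (g⁻¹ * τ) := by group
    have e3 : g * (g⁻¹ * σ) = σ := by group
    rw [e1, hf _ (h.inv_mul hg1 hg2 hσ h1) _ (h.mul_out hg1 hg2 hτ h2), e2,
      hf _ (h.mul_out hg1 hg2 hσ h1) _ (h.inv_mul hg1 hg2 hτ h2), map_add, map_add,
      ← em_apply (ρ g), ← map_mul, e3, map_mul, em_apply]
    abel

end abs

end Pool.Agent.H571.BC
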