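import Pool.Agent.TH115.GD.Defs

/-!
# The Tate conjecture at 2 for elliptic surfaces over coverings of the line

`k'` is a separable closure of `k`, `K = k(t)`, `F = k'(t)`, `W` is an elliptic curve over `K`, `L` is a
finite extension of `K` in the separable closure `Ω` of `F`, and `F L` the field generated by `F` and
`L`.  If `F` and `L` are linearly disjoint over `K`, then `L` is the function field of a geometrically
irreducible curve `C` over `k`, `F L` that of the curve over `k'`, and `W` is the generic fibre of an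
elliptic surface over `C`.  This file has the definitions of the classes in `V_2 Sel(W / F L)` which are
fixed by the Galois group of `L`, in terms of cocycles.
-/

set_option autoImplicit false
set_option linter.all false

open Polynomial IsDedekindDomain WeierstrassCurve WeierstrassCurve.Affine
open scoped Classical

namespace Pool.Agent.H571.BC

open Pool.Agent.TH115.GD

universe u

section cocycles

variable {K F Ω : Type u} [Field K] [Field F] [Field Ω] [Algebra K F] [Algebra F Ω] [Algebra K Ω]
  [IsScalarTower K F Ω]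

/-- `σ` is in `Gal(Ω / F L)`: it fixes the elements of `L`. -/
def Fx (L : IntermediateField K Ω) (σ : Ω ≃ₐ[F] Ω) : Prop := ∀ x ∈ L, σ x = x

variable (W : WeierstrassCurve K) (L : IntermediateField K Ω)

/-- Continuous 1-cocycles of `Gal(Ω / F L)` with values in the discrete group `W(Ω)`. (Only the values
on the open subgroup `Gal(Ω / F L)` of `Gal(Ω / F)` matter; every continuous cocycle of this subgroup
is the restriction of a locally constant function on `Gal(Ω / F)`, zero outside of the subgroup.) -/
structure IsCocOn (f : (Ω ≃ₐ[F] Ω) → Pt W Ω) : Prop where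
  lc : IsLocallyConstant f
  mul : ∀ σ τ, Fx L σ → Fx L τ → f (σ * τ) = f σ + act W (rs K σ) (f τ)

/-- `c` is a continuous 1-cocycle of `Gal(Ω / F L)` with values in the Tate module `T_2 W`: `c n` is a
cocycle with values in the points of order `2 ^ n`, and `2 c (n + 1) = c n`. -/
structure IsTCOn (c : ℕ → (Ω ≃ₐ[F] Ω) → Pt W Ω) : Prop where
  coc : ∀ n, IsCocOn W L (c n)
  zero : ∀ σ, Fx L σ → c 0 σ = 0
  two : ∀ n σ, Fx L σ → 2 • c (n + 1) σ = c n σ

/-- The class of `c` in `H ^ 1 (F L, V_2 W)` is fixed by `Gal(Ω / L)`: for each `τ` in `Gal(Ω / L)`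
there is an `m` such that `2 ^ m (τ c - c)` is the coboundary of an element `Q` of the Tate module.
Here `(τ c) (σ) = τ (c (σ'))` with `σ' = τ⁻¹ σ τ`. -/
def IsInvOn (c : ℕ → (Ω ≃ₐ[F] Ω) → Pt W Ω) : Prop :=
  ∀ τ : Ω ≃ₐ[K] Ω, (∀ x ∈ L, τ x = x) → ∃ (m : ℕ) (Q : ℕ → Pt W Ω), IsTM W Q ∧
    ∀ (n : ℕ) (σ σ' : Ω ≃ₐ[F] Ω), Fx L σ → (∀ x, τ (σ' x) = σ (τ x)) →
      2 ^ m • (act W (ak τ) (c n σ') - c n σ) = act W (rs K σ) (Q n) - Q n

/-- `Fv` is an extension of `F` (a completion) and `Ω'` a separable closure of `Fv`. The completions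
of `F L` at the places over the place of `F` are the fields `Fv ι(L)` for the embeddings `ι` of `Ω` in
`Ω'` over `F`. The restriction of `f` to the Galois group of each of these fields is a coboundary: for
all `ι` there is a point `P` in `W(Ω')` with `f(τ|Ω) = τ P - P` for all `τ` in `Gal(Ω' / Fv ι(L))`, that
is for the `τ` whose restriction `σ` to `Ω` (by `ι`) fixes the elements of `L`. -/
def LocTrivOn (Fv Ω' : Type u) [Field Fv] [Field Ω'] [Algebra K Fv]
    [Algebra Fv Ω'] [Algebra K Ω'] [Algebra F Ω'] [IsScalarTower K Fv Ω'] [IsScalarTower K F Ω']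
    (f : (Ω ≃ₐ[F] Ω) → Pt W Ω) : Prop :=
  ∀ ι : Ω →ₐ[F] Ω', ∃ P : Pt W Ω', ∀ (τ : Ω' ≃ₐ[Fv] Ω') (σ : Ω ≃ₐ[F] Ω), Fx L σ →
    (∀ x, τ (ι x) = ι (σ x)) →
      act W (ι.restrictScalars K) (f σ) = act W (rs K τ) P - P

end cocycles

section stmt

variable {K F : Type} [Field K] [Field F] [Algebra K F]

/-- Local triviality at all the places of `F L` (over the maximal ideals of `k'[t]` and over
`t = ∞`). -/
def LocallyTrivialOn (k' : Type) [Field k'] [Algebra k'[X] F] [IsFractionRing k'[X] F]
    (W : WeierstrassCurve K) (L : IntermediateField K (Sep F))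
    (f : (Sep F ≃ₐ[F] Sep F) → Pt W (Sep F)) : Prop :=
  (∀ v : HeightOneSpectrum k'[X],
    LocTrivOn W L (Comp k'[X] F v) (Sep (Comp k'[X] F v)) f) ∧
  LocTrivOn W L (CompInf k' F) (Sep (CompInf k' F)) f

/-- The Tate conjecture at the prime 2 for the elliptic surface with generic fibre `W` over `L`: the
classes in the 2-adic Selmer group `V_2 Sel(W / F L)` which are fixed by the Galois group of `L` come
from `W(L)`. If `c` is a cocycle of `Gal(Sep F / F L)` with values in `T_2 W` which is everywhere
locally trivial, and the class of `c` in `H ^ 1 (F L, V_2 W)` is fixed by the Galois group of `L`, then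
there is an `m` such that for every `n` there are a point `P` of `W(L)` and a point `R` with
`2 ^ n R = P` such that `2 ^ m c n σ = σ R - R` for all `σ`. -/
def TateOver (k' : Type) [Field k'] [Algebra k'[X] F] [IsFractionRing k'[X] F]
    (W : WeierstrassCurve K) (L : IntermediateField K (Sep F)) : Prop :=
  ∀ c : ℕ → (Sep F ≃ₐ[F] Sep F) → Pt W (Sep F), IsTCOn W L c →
    (∀ n, LocallyTrivialOn k' W L (c n)) → IsInvOn W L c →
    ∃ m : ℕ, ∀ n, ∃ (P : Pt W L) (R : Pt W (Sep F)), 2 ^ n • R = act W L.val P ∧
      ∀ σ, Fx L σ → 2 ^ m • c n σ = act W (rs K σ) R - R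

end stmt

end Pool.Agent.H571.BC
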