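import Pool.Agent.H571.BC.Abs
import Pool.Agent.H571.BC.Defs
import Pool.Agent.TH115.GD.Cls

/-!
Corestriction for cocycles with values in the Tate module of an elliptic curve.
-/

set_option autoImplicit false
set_option linter.all false

open WeierstrassCurve WeierstrassCurve.Affine
open scoped Classical

namespace Pool.Agent.H571.BC

open Pool.Agent.TH115.GD
open Pool.Agent.W309.TD (locConst_apply)

universe u

section basic

variable {K F Ω : Type u} [Field K] [Field F] [Field Ω] [Algebra K F] [Algebra F Ω] [Algebra K Ω]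
  [IsScalarTower K F Ω] (W : WeierstrassCurve K)

theorem act_id (P : Pt W Ω) : act W (AlgHom.id K Ω) P = P := by
  rcases P with _ | ⟨x, y, h⟩
  · rfl
  · rfl

theorem rs_one : rs K (1 : Ω ≃ₐ[F] Ω) = AlgHom.id K Ω := rfl

/-- the action of the Galois group on the points -/
noncomputable def rho : (Ω ≃ₐ[F] Ω) →* AddMonoid.End (Pt W Ω) where
  toFun σ := act W (rs K σ)
  map_one' := AddMonoidHom.ext fun P => by
    rw [rs_one]
    exact act_id W P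
  map_mul' σ τ := AddMonoidHom.ext fun P => (act_act W (rs K τ) (rs K σ) P).symm

theorem rho_apply (σ : Ω ≃ₐ[F] Ω) (P : Pt W Ω) : rho W σ P = act W (rs K σ) P := rfl

/-- the subgroup which fixes `L` -/
def FxS (F : Type u) {K Ω : Type u} [Field K] [Field F] [Field Ω] [Algebra K F] [Algebra F Ω]
    [Algebra K Ω] [IsScalarTower K F Ω] (L : IntermediateField K Ω) : Subgroup (Ω ≃ₐ[F] Ω) where
  carrier := {σ | Fx L σ}
  one_mem' := fun x _ => rfl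
  mul_mem' := fun {a b} ha hb x hx => by
    show a (b x) = x
    rw [hb x hx, ha x hx]
  inv_mem' := fun {a} ha x hx => by
    show a.symm x = x
    rw [AlgEquiv.symm_apply_eq]
    exact (ha x hx).symm

theorem mem_FxS {L : IntermediateField K Ω} {σ : Ω ≃ₐ[F] Ω} : σ ∈ FxS F L ↔ Fx L σ := Iff.rfl

/-- `L2 = L1(s)`, `s ^ 2` is in `K`, and `s` is not in `F L1`. -/
structure Step (L1 L2 : IntermediateField K Ω) (s : Ω) (D : K) (g : Ω ≃ₐ[F] Ω) : Prop where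
  sq : s ^ 2 = algebraMap K Ω D
  ne : s ≠ -s
  fF : ∀ σ : Ω ≃ₐ[F] Ω, Fx L2 σ ↔ Fx L1 σ ∧ σ s = s
  fK : ∀ τ : Ω ≃ₐ[K] Ω, (∀ x ∈ L1, τ x = x) → τ s = s → ∀ x ∈ L2, τ x = x
  g1 : Fx L1 g
  gs : g s = -s

variable {W} {L1 L2 : IntermediateField K Ω} {s : Ω} {D : K} {g : Ω ≃ₐ[F] Ω}

theorem Step.sgn {Ω' : Type u} [Field Ω'] [Algebra K Ω'] (S : Step L1 L2 s D g) (φ ψ : Ω →ₐ[K] Ω') :
    φ s = ψ s ∨ φ s = - ψ s := by
  apply sq_eq_sq_iff_eq_or_eq_neg.1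
  rw [← map_pow, ← map_pow, S.sq, φ.commutes, ψ.commutes]

theorem Step.sgnF (S : Step L1 L2 s D g) (σ : Ω ≃ₐ[F] Ω) : σ s = s ∨ σ s = -s :=
  S.sgn (rs K σ) (AlgHom.id K Ω)

theorem Step.sgnK (S : Step L1 L2 s D g) (σ : Ω ≃ₐ[K] Ω) : σ s = s ∨ σ s = -s :=
  S.sgn (ak σ) (AlgHom.id K Ω)

theorem Step.par (S : Step L1 L2 s D g) : Par (FxS F L1) (FxS F L2) where
  le := fun σ h => ((S.fF σ).1 h).1
  mul := fun σ hσ τ hτ => by
    rw [mem_FxS] at hσ hτ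
    rw [mem_FxS, mem_FxS, mem_FxS, S.fF, S.fF, S.fF]
    have h1 : Fx L1 (σ * τ) := (FxS F L1).mul_mem hσ hτ
    have h2 : (σ * τ) s = σ (τ s) := rfl
    have hne := S.ne
    rw [h2]
    rcases S.sgnF τ with h | h <;> rcases S.sgnF σ with h' | h'
    · rw [h, h']; tauto
    · rw [h, h']
      constructor
      · rintro ⟨-, h3⟩
        exact absurd h3.symm hne
      · rintro h3
        exact absurd (h3.2 ⟨hτ, rfl⟩).2.symm hne
    · rw [h, map_neg, h']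
      constructor
      · rintro ⟨-, h3⟩
        exact absurd h3.symm hne
      · rintro h3
        exact absurd (h3.1 ⟨hσ, rfl⟩).2.symm hne
    · rw [h, map_neg, h', neg_neg]
      constructor
      · rintro -
        constructor
        · rintro ⟨-, h3⟩; exact absurd h3.symm hne
        · rintro ⟨-, h3⟩; exact absurd h3.symm hne
      · rintro -
        exact ⟨h1, rfl⟩

theorem Step.g2 (S : Step L1 L2 s D g) : g ∉ FxS F L2 := by
  rw [mem_FxS, S.fF]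
  rintro ⟨-, h⟩
  rw [S.gs] at h
  exact S.ne h.symm

/-- the corestriction, as a function on the whole group -/
noncomputable def cor (W : WeierstrassCurve K) (s : Ω) (g : Ω ≃ₐ[F] Ω) (f : (Ω ≃ₐ[F] Ω) → Pt W Ω)
    (σ : Ω ≃ₐ[F] Ω) : Pt W Ω :=
  if σ s = s then f σ + act W (rs K g) (f (g⁻¹ * σ * g))
  else act W (rs K g) (f (g⁻¹ * σ)) + f (σ * g)

theorem cor_in {f : (Ω ≃ₐ[F] Ω) → Pt W Ω} {σ : Ω ≃ₐ[F] Ω} (h : σ s = s) :
    cor W s g f σ = f σ + act W (rs K g) (f (g⁻¹ * σ * g)) := if_pos h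

theorem cor_eq (S : Step L1 L2 s D g) {f : (Ω ≃ₐ[F] Ω) → Pt W Ω} {σ : Ω ≃ₐ[F] Ω} (h : Fx L1 σ) :
    cor W s g f σ = corA (rho W) (FxS F L2) g f σ := by
  by_cases hs : σ s = s
  · rw [cor_in hs, corA_in ((S.fF σ).2 ⟨h, hs⟩)]
    rfl
  · rw [corA_out (fun h2 => hs ((S.fF σ).1 h2).2)]
    exact if_neg hs

theorem cor_lc [IsGalois F Ω] {f : (Ω ≃ₐ[F] Ω) → Pt W Ω} (hf : IsLocallyConstant f) :
    IsLocallyConstant (cor W s g f) := by
  have h0 : IsLocallyConstant (fun σ : Ω ≃ₐ[F] Ω => σ s) := locConst_apply (K := F) s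
  have h1 : IsLocallyConstant (fun σ : Ω ≃ₐ[F] Ω => f (g⁻¹ * σ * g)) :=
    hf.comp_continuous (f := fun σ : Ω ≃ₐ[F] Ω => g⁻¹ * σ * g) (by fun_prop)
  have h2 : IsLocallyConstant (fun σ : Ω ≃ₐ[F] Ω => f (g⁻¹ * σ)) :=
    hf.comp_continuous (f := fun σ : Ω ≃ₐ[F] Ω => g⁻¹ * σ) (by fun_prop)
  have h3 : IsLocallyConstant (fun σ : Ω ≃ₐ[F] Ω => f (σ * g)) :=
    hf.comp_continuous (f := fun σ : Ω ≃ₐ[F] Ω => σ * g) (by fun_prop)
  have h4 := h0.prodMk ((hf.prodMk h1).prodMk (h2.prodMk h3))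
  exact h4.comp (fun q : Ω × ((Pt W Ω × Pt W Ω) × (Pt W Ω × Pt W Ω)) =>
    if q.1 = s then q.2.1.1 + act W (rs K g) q.2.1.2
    else act W (rs K g) q.2.2.1 + q.2.2.2)

theorem cor_mul (S : Step L1 L2 s D g) {f : (Ω ≃ₐ[F] Ω) → Pt W Ω}
    (hf : ∀ σ τ, Fx L2 σ → Fx L2 τ → f (σ * τ) = f σ + act W (rs K σ) (f τ)) :
    ∀ σ τ, Fx L1 σ → Fx L1 τ →
      cor W s g f (σ * τ) = cor W s g f σ + act W (rs K σ) (cor W s g f τ) := by
  intro σ τ hσ hτ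
  have h := corA_mul (ρ := rho W) S.par (f := f) (fun σ hσ τ hτ => hf σ τ hσ hτ) S.g1 S.g2
    σ hσ τ hτ
  rw [cor_eq S hσ, cor_eq S hτ, cor_eq S ((FxS F L1).mul_mem hσ hτ), h]
  rfl

theorem cor_zero (S : Step L1 L2 s D g) {f : (Ω ≃ₐ[F] Ω) → Pt W Ω}
    (hf : ∀ σ, Fx L2 σ → f σ = 0) {σ : Ω ≃ₐ[F] Ω} (hσ : Fx L1 σ) : cor W s g f σ = 0 := by
  rw [cor_eq S hσ]
  by_cases h2 : σ ∈ FxS F L2
  · rw [corA_in h2, hf _ h2, hf _ (S.par.conj S.g1 h2), map_zero, add_zero]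
  · rw [corA_out h2, hf _ (S.par.inv_mul S.g1 S.g2 hσ h2), hf _ (S.par.mul_out S.g1 S.g2 hσ h2),
      map_zero, add_zero]

theorem cor_two (S : Step L1 L2 s D g) {f f' : (Ω ≃ₐ[F] Ω) → Pt W Ω}
    (hf : ∀ σ, Fx L2 σ → 2 • f' σ = f σ) {σ : Ω ≃ₐ[F] Ω} (hσ : Fx L1 σ) :
    2 • cor W s g f' σ = cor W s g f σ := by
  rw [cor_eq S hσ, cor_eq S hσ]
  by_cases h2 : σ ∈ FxS F L2
  · rw [corA_in h2, corA_in h2, smul_add, ← map_nsmul, hf _ h2, hf _ (S.par.conj S.g1 h2)]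
  · rw [corA_out h2, corA_out h2, smul_add, ← map_nsmul,
      hf _ (S.par.inv_mul S.g1 S.g2 hσ h2), hf _ (S.par.mul_out S.g1 S.g2 hσ h2)]

/-- twice the corestriction -/
noncomputable def cor2 (W : WeierstrassCurve K) (s : Ω) (g : Ω ≃ₐ[F] Ω)
    (c : ℕ → (Ω ≃ₐ[F] Ω) → Pt W Ω) (n : ℕ) (σ : Ω ≃ₐ[F] Ω) : Pt W Ω := 2 • cor W s g (c n) σ

theorem cor2_tc [IsGalois F Ω] (S : Step L1 L2 s D g) {c : ℕ → (Ω ≃ₐ[F] Ω) → Pt W Ω}
    (hc : IsTCOn W L2 c) : IsTCOn W L1 (cor2 W s g c) where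
  coc := fun n => ⟨(cor_lc (hc.coc n).lc).comp (fun P => 2 • P), fun σ τ hσ hτ => by
    show 2 • cor W s g (c n) (σ * τ) = 2 • cor W s g (c n) σ +
      act W (rs K σ) (2 • cor W s g (c n) τ)
    rw [cor_mul S (hc.coc n).mul σ τ hσ hτ, map_nsmul, smul_add]⟩
  zero := fun σ hσ => by
    show 2 • cor W s g (c 0) σ = 0
    rw [cor_zero S hc.zero hσ, smul_zero]
  two := fun n σ hσ => by
    show 2 • (2 • cor W s g (c (n + 1)) σ) = 2 • cor W s g (c n) σ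
    rw [cor_two S (hc.two n) hσ]

end basic

end Pool.Agent.H571.BC
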