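import Pool.Agent.H571.BC.Gen
import Pool.Agent.R939.EI.Tw1

/-!
The criterion: square roots of `c l * D l (h)`, where `b` and `a² - 4 b` are not squares modulo the
primes which divide the `D l`.
-/

set_option autoImplicit false
set_option linter.all false

open Polynomial IsDedekindDomain WeierstrassCurve WeierstrassCurve.Affine
open scoped Classical

namespace Pool.Agent.H571.BC

open Pool.Agent.TH115.GD Pool.Agent.R939.EI

section poly

variable {k : Type} [Field k]

/-- A prime of odd multiplicity. -/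
theorem odd_prime {p : k[X]} (hp : p ≠ 0) (hns : ∀ (e : k) (q : k[X]), p ≠ C e * q ^ 2) :
    ∃ (π p' : k[X]) (m : ℕ), Irreducible π ∧ p = π ^ (2 * m + 1) * p' ∧ ¬ π ∣ p' := by
  obtain ⟨r, S, T, hr, hS, hS', hT, hpe⟩ := sq_dec _ p rfl hp
  have hS1 : ¬ IsUnit S := by
    intro hu
    have : S = 1 := hS.eq_one_of_isUnit hu
    exact hns r T (by rw [hpe, this]; ring)
  obtain ⟨π, hπ, S', rfl⟩ := WfDvdMonoid.exists_irreducible_factor hS1 hS.ne_zero
  have hπS : ¬ π ∣ S' := by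
    rintro ⟨S'', rfl⟩
    exact hπ.not_isUnit (hS' π ⟨S'', by ring⟩)
  obtain ⟨j, T', hT', rfl⟩ := WfDvdMonoid.max_power_factor hT hπ
  refine ⟨π, C r * S' * T' ^ 2, j, hπ, ?_, ?_⟩
  · rw [hpe]; ring
  · intro h
    rcases hπ.prime.dvd_or_dvd h with h | h
    · rw [(isUnit_C.2 (isUnit_iff_ne_zero.2 hr)).dvd_mul_left] at h
      exact hπS h
    · exact hT' (hπ.prime.dvd_of_dvd_pow h)

theorem comp_ne_zero' {p h : k[X]} (hp : p ≠ 0) (hh : h.natDegree ≠ 0) : p.comp h ≠ 0 := by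
  intro h0
  rcases comp_eq_zero_iff.1 h0 with h1 | ⟨-, h1⟩
  · exact hp h1
  · rw [h1, natDegree_C] at hh
    exact hh rfl

end poly

section sq

variable {k k' K F : Type} [Field k] [Field k'] [Algebra k k'] [Field K] [Algebra k[X] K]
    [Field F] [Algebra k'[X] F] [IsFractionRing k'[X] F] [Algebra K F]

theorem rmul_pow {p : k'[X]} (hp : p ≠ 0) (θ : k') (n : ℕ) :
    (p ^ n).rootMultiplicity θ = n * p.rootMultiplicity θ := by
  induction n with
  | zero => rw [pow_zero, zero_mul, ← C_1, rootMultiplicity_C]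
  | succ n ih => rw [pow_succ, rootMultiplicity_mul (mul_ne_zero (pow_ne_zero _ hp) hp), ih]; ring

theorem not_sq_mult {P : k'[X]} (hP : P ≠ 0) {θ : k'} (ho : Odd (P.rootMultiplicity θ)) :
    ¬ IsSquare (algebraMap k'[X] F P) := by
  rintro ⟨w, hw⟩
  obtain ⟨n, d, hd, rfl⟩ := IsFractionRing.div_surjective (A := k'[X]) w
  have hd0 : d ≠ 0 := nonZeroDivisors.ne_zero hd
  have hdF : algebraMap k'[X] F d ≠ 0 := by simpa using hd0
  have e1 : algebraMap k'[X] F (P * d ^ 2) = algebraMap k'[X] F (n ^ 2) := by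
    rw [map_mul, map_pow, map_pow, hw]
    field_simp
  have e2 : P * d ^ 2 = n ^ 2 := IsFractionRing.injective k'[X] F e1
  have hn0 : n ≠ 0 := by
    rintro rfl
    rw [zero_pow two_ne_zero] at e2
    exact mul_ne_zero hP (pow_ne_zero _ hd0) e2
  have e3 : (P * d ^ 2).rootMultiplicity θ = (n ^ 2).rootMultiplicity θ := by rw [e2]
  rw [rootMultiplicity_mul (mul_ne_zero hP (pow_ne_zero _ hd0)), rmul_pow hd0,
    rmul_pow hn0] at e3
  obtain ⟨j, hj⟩ := ho
  omega

theorem not_sq_comp (hT : IsTower k k' K F) {π p' h : k[X]} {m : ℕ} {e : k} (he : e ≠ 0)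
    (hπ : Irreducible (π.comp h)) (hs : (π.comp h).Separable) (hc : IsCoprime π p')
    (hp0 : p'.comp h ≠ 0) :
    ¬ IsSquare (algebraMap K F (algebraMap k[X] K (C e * (π ^ (2 * m + 1) * p').comp h))) := by
  haveI := hT.sep
  haveI : IsSepClosed k' := IsSepClosure.sep_closed k
  rw [hT.map]
  have hinj : Function.Injective (algebraMap k k') := (algebraMap k k').injective
  have hdeg : ((π.comp h).map (algebraMap k k')).degree ≠ 0 := by
    rw [degree_map]
    exact (degree_pos_of_irreducible hπ).ne'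
  obtain ⟨θ, hθ⟩ := IsSepClosed.exists_root ((π.comp h).map (algebraMap k k')) hdeg hs.map
  have hπ0 : (π.comp h).map (algebraMap k k') ≠ 0 := (Polynomial.map_ne_zero_iff hinj).2 hπ.ne_zero
  have hp0' : (p'.comp h).map (algebraMap k k') ≠ 0 := (Polynomial.map_ne_zero_iff hinj).2 hp0
  have h1 : ((π.comp h).map (algebraMap k k')).rootMultiplicity θ = 1 := by
    apply le_antisymm
    · exact rootMultiplicity_le_one_of_separable hs.map θ
    · exact (rootMultiplicity_pos hπ0).2 hθ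
  have h2 : ((p'.comp h).map (algebraMap k k')).rootMultiplicity θ = 0 := by
    rw [rootMultiplicity_eq_zero_iff]
    intro h3
    exfalso
    obtain ⟨u, v, huv⟩ := hc
    have h4 := congrArg (fun q : k[X] => ((q.comp h).map (algebraMap k k')).eval θ) huv
    simp only [add_comp, mul_comp, one_comp, Polynomial.map_add, Polynomial.map_mul,
      Polynomial.map_one, eval_add, eval_mul, eval_one] at h4
    have h5 : ((π.comp h).map (algebraMap k k')).eval θ = 0 := hθ
    have h6 : ((p'.comp h).map (algebraMap k k')).eval θ = 0 := h3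
    rw [h5, h6, mul_zero, mul_zero, add_zero] at h4
    exact zero_ne_one h4
  have hC : (C (algebraMap k k' e) : k'[X]) ≠ 0 := C_ne_zero.2 ((_root_.map_ne_zero _).2 he)
  have e1 : (C e * (π ^ (2 * m + 1) * p').comp h).map (algebraMap k k') =
      C (algebraMap k k' e) * (((π.comp h).map (algebraMap k k')) ^ (2 * m + 1) *
        (p'.comp h).map (algebraMap k k')) := by
    rw [Polynomial.map_mul, map_C, mul_comp, pow_comp, Polynomial.map_mul, Polynomial.map_pow]
  rw [e1]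
  have hne : ((π.comp h).map (algebraMap k k')) ^ (2 * m + 1) *
      (p'.comp h).map (algebraMap k k') ≠ 0 := mul_ne_zero (pow_ne_zero _ hπ0) hp0'
  refine not_sq_mult (mul_ne_zero hC hne) (θ := θ) ?_
  rw [rootMultiplicity_mul (mul_ne_zero hC hne), rootMultiplicity_C, rootMultiplicity_mul hne,
    rmul_pow hπ0, h1, h2]
  exact ⟨m, by ring⟩

end sq

section crit

variable {k k' K F : Type} [Field k] [Field k'] [Algebra k k'] [Field K] [Algebra k[X] K]
    [Field F] [Algebra k'[X] F] [IsFractionRing k'[X] F] [Algebra K F]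

theorem prod_dk {I : Type} (D : I → k[X]) (c : I → k) (h : k[X]) (J : Finset I) :
    ∏ l ∈ J, algebraMap k[X] K ((C (c l) * D l).comp h) =
      algebraMap k[X] K ((C (∏ l ∈ J, c l) * ∏ l ∈ J, D l).comp h) := by
  rw [← map_prod, ← Polynomial.prod_comp, Finset.prod_mul_distrib, map_prod]

theorem disc_comp [IsFractionRing k[X] K] (h2 : (2 : k) ≠ 0) {a b h : k[X]} (hb : b ≠ 0)
    (hd : a ^ 2 - 4 * b ≠ 0) (hh : h.natDegree ≠ 0) :
    (crvT (algebraMap k[X] K (a.comp h)) (algebraMap k[X] K (b.comp h))).Δ ≠ 0 := by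
  have e : (crvT (algebraMap k[X] K (a.comp h)) (algebraMap k[X] K (b.comp h))).Δ =
      algebraMap k[X] K (C 16 * b.comp h ^ 2 * (a ^ 2 - 4 * b).comp h) := by
    simp only [WeierstrassCurve.Δ, WeierstrassCurve.b₂, WeierstrassCurve.b₄, WeierstrassCurve.b₆,
      WeierstrassCurve.b₈, crvT]
    have e4 : (4 : k[X]) = C 4 := (map_ofNat C 4).symm
    have e16 : algebraMap k[X] K (C 16) = 16 := by rw [map_ofNat C 16, map_ofNat]
    have e5 : algebraMap k[X] K (C 4) = 4 := by rw [map_ofNat C 4, map_ofNat]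
    rw [e4]
    simp only [map_mul, map_pow, sub_comp, mul_comp, pow_comp, map_sub, C_comp, e16, e5]
    ring
  rw [e, Ne, IsFractionRing.to_map_eq_zero_iff]
  have h16 : (16 : k) ≠ 0 := by
    have : (16 : k) = 2 ^ 4 := by norm_num
    rw [this]
    exact pow_ne_zero 4 h2
  exact mul_ne_zero (mul_ne_zero (C_ne_zero.2 h16) (pow_ne_zero _ (comp_ne_zero' hb hh)))
    (comp_ne_zero' hd hh)

theorem tw_one (hT : IsTower k k' K F) (h2 : (2 : k) ≠ 0) {a b h : k[X]} (hb : b ≠ 0)
    (hd : a ^ 2 - 4 * b ≠ 0) (hNb : NotNorm b)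
    (hNd : NotNorm (a ^ 2 - 4 * b)) (hO : OnlyTrivial a b)
    (hO' : OnlyTrivial (-2 * a) (a ^ 2 - 4 * b)) {D0 : k[X]} {c0 : k}
    (hD : InertIn a b D0) (hc : c0 ≠ 0) (hodd : Odd h.natDegree)
    (hi : Inert (b * (a ^ 2 - 4 * b) * D0) h) :
    TateAtTwo (F := F) k' (crvT (algebraMap k[X] K (a.comp h) *
      algebraMap k[X] K ((C c0 * D0).comp h)) (algebraMap k[X] K (b.comp h) *
      algebraMap k[X] K ((C c0 * D0).comp h) ^ 2)) := by
  have e1 : algebraMap k[X] K (a.comp h) * algebraMap k[X] K ((C c0 * D0).comp h) =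
      algebraMap k[X] K ((C c0 * (a * D0)).comp h) := by
    rw [← map_mul (algebraMap k[X] K), ← mul_comp, mul_left_comm]
  have e2 : algebraMap k[X] K (b.comp h) * algebraMap k[X] K ((C c0 * D0).comp h) ^ 2 =
      algebraMap k[X] K ((C (c0 ^ 2) * (b * D0 ^ 2)).comp h) := by
    have e0 : b * (C c0 * D0) ^ 2 = C (c0 ^ 2) * (b * D0 ^ 2) := by
      rw [C_pow]
      ring
    rw [← map_pow (algebraMap k[X] K), ← map_mul (algebraMap k[X] K), ← pow_comp, ← mul_comp, e0]
  rw [e1, e2]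
  exact twist_main hT h2 hb hd hNb hNd hO hO' hD hc hodd hi

/-- **The criterion.** -/
theorem crit (hT : IsTower k k' K F) (h2 : (2 : k) ≠ 0) {a b h : k[X]} (hNb : NotNorm b)
    (hNd : NotNorm (a ^ 2 - 4 * b)) (hO : OnlyTrivial a b)
    (hO' : OnlyTrivial (-2 * a) (a ^ 2 - 4 * b)) {I : Type} [Fintype I] {D : I → k[X]} {c : I → k}
    (hD : InertIn a b (∏ l, D l))
    (hind : ∀ J : Finset I, J.Nonempty → ∀ (e : k) (q : k[X]), ∏ l ∈ J, D l ≠ C e * q ^ 2)
    (hc : ∀ l, c l ≠ 0) (hodd : Odd h.natDegree)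
    (hi : Inert (b * (a ^ 2 - 4 * b) * ∏ l, D l) h) {s : I → Sep F}
    (hs : ∀ l, s l ^ 2 = algebraMap K (Sep F) (algebraMap k[X] K ((C (c l) * D l).comp h))) :
    (∀ l, ∃ g : Sep F ≃ₐ[F] Sep F, g (s l) = - s l ∧ ∀ j, j ≠ l → g (s j) = s j) ∧
    TateOver (F := F) k' (crvT (algebraMap k[X] K (a.comp h)) (algebraMap k[X] K (b.comp h)))
      (IntermediateField.adjoin K (Set.range s)) := by
  haveI := hT.fracK
  have hne : ∀ f : k[X], NotNorm f → f ≠ 0 := by
    intro f hf h0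
    exact (hf 0 1 0 0 (by rw [h0]; simp)).1 rfl
  have hb := hne b hNb
  have hd := hne _ hNd
  have hh : h.natDegree ≠ 0 := by
    intro h0
    rw [h0] at hodd
    exact absurd hodd (by decide)
  have hD0 : ∀ l, D l ≠ 0 := fun l => (Finset.prod_ne_zero_iff.1 hD.1) l (Finset.mem_univ l)
  have h2K : (2 : K) ≠ 0 := by
    have : (2 : K) = algebraMap k[X] K (C 2) := by rw [map_ofNat, map_ofNat]
    rw [this, Ne, IsFractionRing.to_map_eq_zero_iff]
    exact C_ne_zero.2 h2
  have hDK : ∀ l, algebraMap k[X] K ((C (c l) * D l).comp h) ≠ 0 := by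
    intro l
    rw [Ne, IsFractionRing.to_map_eq_zero_iff]
    exact comp_ne_zero' (mul_ne_zero (C_ne_zero.2 (hc l)) (hD0 l)) hh
  have hdvd : ∀ J : Finset I, ∏ l ∈ J, D l ∣ ∏ l, D l := fun J =>
    Finset.prod_dvd_prod_of_subset _ _ _ (Finset.subset_univ J)
  have hcJ : ∀ J : Finset I, ∏ l ∈ J, c l ≠ 0 := fun J => Finset.prod_ne_zero_iff.2 fun l _ => hc l
  have hDJ : ∀ J : Finset I, ∏ l ∈ J, D l ≠ 0 := fun J => Finset.prod_ne_zero_iff.2 fun l _ => hD0 l
  have hsq : ∀ J ⊆ (Finset.univ : Finset I), J.Nonempty →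
      ¬ IsSquare (algebraMap K F (∏ l ∈ J, algebraMap k[X] K ((C (c l) * D l).comp h))) := by
    intro J _ hJ
    obtain ⟨π, p', m, hπ, e, hn⟩ := odd_prime (hDJ J) (hind J hJ)
    have hp' : p' ≠ 0 := by
      rintro rfl
      exact hn (dvd_zero _)
    have hπd : π ∣ b * (a ^ 2 - 4 * b) * ∏ l, D l := by
      refine Dvd.dvd.mul_left (Dvd.dvd.trans ?_ (hdvd J)) _
      rw [e, pow_succ]
      exact ⟨π ^ (2 * m) * p', by ring⟩
    obtain ⟨h3, h4⟩ := hi π hπ hπd
    rw [prod_dk, mul_comp, C_comp, e]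
    exact not_sq_comp hT (hcJ J) h3 h4 (hπ.coprime_iff_not_dvd.2 hn) (comp_ne_zero' hp' hh)
  have hDi : ∀ J : Finset I, InertIn a b (∏ l ∈ J, D l) := fun J =>
    ⟨hDJ J, fun π hπ hdv => hD.2 π hπ (hdv.trans (hdvd J))⟩
  have hiJ : ∀ J : Finset I, Inert (b * (a ^ 2 - 4 * b) * ∏ l ∈ J, D l) h := fun J π hπ hdv =>
    hi π hπ (hdv.trans (mul_dvd_mul_left _ (hdvd J)))
  refine ⟨fun l => ?_, ?_⟩
  · obtain ⟨g, S⟩ := step_adj hs h2K hDK (T := Finset.univ.erase l) (a := l)
      (Finset.notMem_erase _ _) (fun J hJ => hsq J (Finset.subset_univ J))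
    refine ⟨g, S.gs, fun j hj => ?_⟩
    exact (fx_adj g).1 S.g1 j (Finset.mem_erase.2 ⟨hj, Finset.mem_univ j⟩)
  · have key := tower (k' := k') hs h2K hDK (disc_comp (K := K) h2 hb hd hh) Finset.univ hsq ∅
      (Finset.disjoint_empty_left _) (fun J _ _ => by
        rw [prod_dk]
        exact tw_one hT h2 hb hd hNb hNd hO hO' (hDi J) (hcJ J) hodd (hiJ J))
    rw [Finset.prod_empty, mul_one, one_pow, mul_one] at key
    have e3 : adj K s (Finset.univ : Finset I) = IntermediateField.adjoin K (Set.range s) := by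
      rw [adj, Finset.coe_univ, Set.image_univ]
    rw [e3] at key
    exact key

end crit

end Pool.Agent.H571.BC
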