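import Pool.Agent.H571.BC.Crit
import Pool.Agent.R939.PP.Mon
import Pool.Agent.R939.PP.PolR

/-!
# Almost all multiquadratic base curves
-/

set_option autoImplicit false
set_option linter.all false

namespace Pool.Agent.H571.BC

open Polynomial NumberField Pool.Agent.R939.EI Pool.Agent.R939.HI Pool.Agent.W275.UB
open Pool.Agent.TH115.GD Finset Pool.Agent.R939.PP

/-- Let `W : y ^ 2 = x (x ^ 2 + a x + b)` be an elliptic curve over `K = k(t)`, `k` a number field,
`F = k'(t)`, and let `D l` be polynomials. For all the constants `c l ≠ 0` and all the polynomials `h`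
of odd degree such that the irreducible divisors of `b (a² - 4 b)` remain irreducible after the
substitution `t ↦ h(t)`, and such that either `h` is monic with integral coefficients or the `D l (h)`
are irreducible: let `L` be the field generated over `K` by square roots `s l` of the
`c l * D l (h)`, `l = 1, ..., u`, in a separable closure of `F`. Then

* each one of the signs of the `s l` can be changed by an automorphism over `F` without a change of the
  other ones; so the field `F L` has degree `2 ^ u` over `F`, and `L` is the function field of a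
  geometrically irreducible curve over `k`, the covering of the line of degree `2 ^ u` with equations
  `(s l) ^ 2 = c l * D l (h(t))`;
* the Tate conjecture at 2 holds for the elliptic surface over this curve with generic fibre
  `y ^ 2 = x (x ^ 2 + a (h) x + b (h))`. -/
def TateMQ (k' K F : Type) {k : Type} [Field k] [NumberField k] [Field k'] [Field K]
    [Algebra k[X] K] [Field F] [Algebra k'[X] F] [IsFractionRing k'[X] F] [Algebra K F]
    (a b : k[X]) {u : ℕ} (D : Fin u → k[X]) : Prop :=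
  ∀ (c : Fin u → k) (h : k[X]) (s : Fin u → Sep F), (∀ l, c l ≠ 0) → Odd h.natDegree →
    (∀ π : k[X], Irreducible π → π ∣ b * (a ^ 2 - 4 * b) → Irreducible (π.comp h)) →
    ((∃ g : (𝓞 k)[X], g.Monic ∧ h = g.map (algebraMap (𝓞 k) k)) ∨
      ∀ l, Irreducible ((D l).comp h)) →
    (∀ l, s l ^ 2 = algebraMap K (Sep F) (algebraMap k[X] K (C (c l) * (D l).comp h))) →
    (∀ l, ∃ g : Sep F ≃ₐ[F] Sep F, g (s l) = - s l ∧ ∀ j, j ≠ l → g (s j) = s j) ∧
    TateOver (F := F) k' (crvT (algebraMap k[X] K (a.comp h)) (algebraMap k[X] K (b.comp h)))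
      (IntermediateField.adjoin K (Set.range s))

section dens

variable {k : Type} [Field k] [NumberField k] {J : Type} [Fintype J] (B : Module.Basis J ℤ (𝓞 k))
  {u : ℕ} {n : Fin u → ℕ}

/-- the first and the last coefficients of two of the polynomials are not proportional -/
theorem dens_cross {l l' : Fin u} (hl : l ≠ l') (hn : 1 ≤ n l) :
    D0 {x : (Σ l : Fin u, Fin (n l + 1)) × J → ℤ |
      kv B x ⟨l', Fin.last (n l')⟩ * kv B x ⟨l, 0⟩ = kv B x ⟨l, Fin.last (n l)⟩ * kv B x ⟨l', 0⟩} := by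
  classical
  have hne1 : (⟨l, Fin.last (n l)⟩ : Σ l : Fin u, Fin (n l + 1)) ≠ ⟨l, 0⟩ := by
    intro h
    have h2 := (Sigma.mk.inj_iff.1 h).2
    have h3 := congrArg Fin.val (eq_of_heq h2)
    rw [Fin.val_last] at h3
    simp at h3
    omega
  have hne2 : (⟨l, Fin.last (n l)⟩ : Σ l : Fin u, Fin (n l + 1)) ≠ ⟨l', Fin.last (n l')⟩ := by
    intro h
    exact hl (Sigma.mk.inj_iff.1 h).1
  let v : MvPolynomial (Σ l : Fin u, Fin (n l + 1)) ℤ :=
    MvPolynomial.X ⟨l', Fin.last (n l')⟩ * MvPolynomial.X ⟨l, 0⟩ -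
      MvPolynomial.X ⟨l, Fin.last (n l)⟩ * MvPolynomial.X ⟨l', 0⟩
  let y : (Σ l : Fin u, Fin (n l + 1)) × J → ℤ := fun q =>
    if q.1 = ⟨l, Fin.last (n l)⟩ then 0 else B.repr 1 q.2
  have hy : val B v y ≠ 0 := by
    have e1 : (elt B fun t => y (⟨l', Fin.last (n l')⟩, t)) = 1 := by
      rw [basis_elt B (1 : 𝓞 k)]
      congr 1
      funext t
      exact if_neg hne2.symm
    have e2 : (elt B fun t => y (⟨l, 0⟩, t)) = 1 := by
      rw [basis_elt B (1 : 𝓞 k)]
      congr 1
      funext t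
      exact if_neg hne1.symm
    have e3 : (elt B fun t => y (⟨l, Fin.last (n l)⟩, t)) = 0 := by
      have : (fun t => y (⟨l, Fin.last (n l)⟩, t)) = fun _ => 0 := by
        funext t
        exact if_pos rfl
      rw [this, elt]
      simp
    rw [val_sub, val_mul, val_mul, val_X, val_X, val_X, val_X, e1, e2, e3, zero_mul, sub_zero,
      mul_one]
    exact one_ne_zero
  intro ε hε
  refine (val_zero B hy ε hε).mono ?_
  intro x hx
  show val B v x = 0
  rw [val_sub, val_mul, val_mul, val_X, val_X, val_X, val_X, sub_eq_zero]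
  apply FaithfulSMul.algebraMap_injective (𝓞 k) k
  rw [map_mul, map_mul]
  exact hx

theorem dens_lead (l : Fin u) :
    D0 {x : (Σ l : Fin u, Fin (n l + 1)) × J → ℤ | kv B x ⟨l, Fin.last (n l)⟩ = 0} := by
  classical
  let y : (Σ l : Fin u, Fin (n l + 1)) × J → ℤ := fun q => B.repr 1 q.2
  have hy : val B (MvPolynomial.X (⟨l, Fin.last (n l)⟩ : Σ l : Fin u, Fin (n l + 1))) y ≠ 0 := by
    rw [val_X, ← basis_elt B (1 : 𝓞 k)]
    exact one_ne_zero
  intro ε hε
  refine (val_zero B hy ε hε).mono ?_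
  intro x hx
  show val B _ x = 0
  rw [val_X]
  apply FaithfulSMul.algebraMap_injective (𝓞 k) k
  rw [map_zero]
  exact hx

/-- independence of the polynomials modulo constants and squares -/
theorem indep {D : Fin u → k[X]} (hirr : ∀ l, Irreducible (D l))
    (hna : ∀ l l', l ≠ l' → ¬ Associated (D l) (D l')) (T : Finset (Fin u)) (hT : T.Nonempty)
    (e : k) (q : k[X]) : ∏ l ∈ T, D l ≠ C e * q ^ 2 := by
  classical
  intro heq
  obtain ⟨l, hl⟩ := hT
  have h0 : ∏ l ∈ T, D l ≠ 0 := Finset.prod_ne_zero_iff.2 fun i _ => (hirr i).ne_zero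
  have he : e ≠ 0 := by
    rintro rfl
    rw [C_0, zero_mul] at heq
    exact h0 heq
  have h1 : D l ∣ q := by
    have h2 : D l ∣ C e * q ^ 2 := by
      rw [← heq]
      exact Finset.dvd_prod_of_mem _ hl
    rw [(isUnit_C.2 (isUnit_iff_ne_zero.2 he)).dvd_mul_left] at h2
    exact (hirr l).prime.dvd_of_dvd_pow h2
  obtain ⟨q', rfl⟩ := h1
  rw [← Finset.mul_prod_erase T D hl] at heq
  have h3 : ∏ x ∈ T.erase l, D x = D l * (C e * q' ^ 2) := by
    apply mul_left_cancel₀ (hirr l).ne_zero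
    rw [heq]
    ring
  have h4 : D l ∣ ∏ x ∈ T.erase l, D x := ⟨_, h3⟩
  obtain ⟨l', hl', h5⟩ := ((hirr l).prime.dvd_finsetProd_iff _).1 h4
  exact hna l l' (Finset.ne_of_mem_erase hl').symm ((hirr l).associated_of_dvd (hirr l') h5)

theorem not_assoc {x : (Σ l : Fin u, Fin (n l + 1)) × J → ℤ} {l l' : Fin u}
    (hlead : ∀ l, kv B x ⟨l, Fin.last (n l)⟩ ≠ 0)
    (hx : kv B x ⟨l', Fin.last (n l')⟩ * kv B x ⟨l, 0⟩ ≠
      kv B x ⟨l, Fin.last (n l)⟩ * kv B x ⟨l', 0⟩) :
    ¬ Associated (polA fun j => kv B x ⟨l, j⟩) (polA fun j => kv B x ⟨l', j⟩) := by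
  rintro ⟨w, hw⟩
  obtain ⟨c0, hc0, hc0'⟩ := Polynomial.isUnit_iff.1 w.isUnit
  have d1 := lead_polA (c := fun j => kv B x ⟨l, j⟩) (isUnit_iff_ne_zero.2 (hlead l))
  have d2 := lead_polA (c := fun j => kv B x ⟨l', j⟩) (isUnit_iff_ne_zero.2 (hlead l'))
  have e1 : (polA fun j => kv B x ⟨l', j⟩) = C c0 * (polA fun j => kv B x ⟨l, j⟩) := by
    rw [← hw, ← hc0', mul_comm]
  have e2 : kv B x ⟨l', Fin.last (n l')⟩ = c0 * kv B x ⟨l, Fin.last (n l)⟩ := by
    have h1 := congrArg leadingCoeff e1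
    rw [leadingCoeff_mul, leadingCoeff_C, d1.2, d2.2] at h1
    exact h1
  have e3 : kv B x ⟨l', 0⟩ = c0 * kv B x ⟨l, 0⟩ := by
    have h1 := congrArg (fun p : k[X] => p.coeff 0) e1
    simp only [coeff_C_mul] at h1
    have h2 : (polA fun j => kv B x ⟨l', j⟩).coeff 0 = kv B x ⟨l', 0⟩ :=
      coeff_polA (fun j => kv B x ⟨l', j⟩) 0
    have h3 : (polA fun j => kv B x ⟨l, j⟩).coeff 0 = kv B x ⟨l, 0⟩ :=
      coeff_polA (fun j => kv B x ⟨l, j⟩) 0
    rw [h2, h3] at h1
    exact h1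
  apply hx
  rw [e2, e3]
  ring

end dens

section main

variable {k k' K F : Type} [Field k] [Field k'] [Algebra k k'] [Field K] [Algebra k[X] K]
    [Field F] [Algebra k'[X] F] [IsFractionRing k'[X] F] [Algebra K F]

/-- The property holds for irreducible polynomials which are not proportional. -/
theorem tateMQ [NumberField k] (hT : IsTower k k' K F) {a b : k[X]} (hNb : NotNorm b)
    (hNd : NotNorm (a ^ 2 - 4 * b)) (hO : OnlyTrivial a b)
    (hO' : OnlyTrivial (-2 * a) (a ^ 2 - 4 * b)) {u : ℕ} {D : Fin u → k[X]}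
    (hin : InertIn a b (∏ l, D l)) (hall : ∀ l, AllIrr (D l))
    (hna : ∀ l l', l ≠ l' → ¬ Associated (D l) (D l')) : TateMQ k' K F a b D := by
  intro c h s hc hodd hi hcase hs
  refine crit hT two_ne_zero hNb hNd hO hO' hin (indep (fun l => (hall l).1) hna) hc hodd ?_
    (fun l => by rw [hs l, mul_comp, C_comp])
  intro π hπ hdv
  have h3 : Irreducible (π.comp h) := by
    rcases hπ.prime.dvd_or_dvd hdv with h8 | h8
    · exact hi π hπ h8
    · obtain ⟨l, -, hl⟩ := (hπ.prime.dvd_finsetProd_iff _).1 h8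
      have has : Associated (D l) π := (hπ.associated_of_dvd (hall l).1 hl).symm
      have h10 : Irreducible ((D l).comp h) := by
        rcases hcase with ⟨g, hg, rfl⟩ | h9
        · have hgd : g.natDegree ≠ 0 := by
            intro h0
            rw [hg.natDegree_map, h0] at hodd
            exact absurd hodd (by decide)
          exact (hall l).2 g hg hgd
        · exact h9 l
      obtain ⟨w, hw⟩ := has
      rw [← hw, mul_comp]
      obtain ⟨c0, hc0, hc0'⟩ := Polynomial.isUnit_iff.1 w.isUnit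
      rw [← hc0', C_comp]
      exact (irreducible_mul_isUnit (isUnit_C.2 hc0)).2 h10
  exact ⟨h3, h3.separable⟩

/-- **Almost all multiquadratic base curves.** -/
theorem almost_all [NumberField k] (hT : IsTower k k' K F) {J : Type} [Fintype J]
    (B : Module.Basis J ℤ (𝓞 k)) {a b : k[X]} (hNb : NotNorm b) (hNd : NotNorm (a ^ 2 - 4 * b))
    (hO : OnlyTrivial a b) (hO' : OnlyTrivial (-2 * a) (a ^ 2 - 4 * b)) {u : ℕ} {n : Fin u → ℕ}
    (hn : ∀ l, 1 ≤ n l) {η : ℝ} (hη : 0 < η) :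
    ∃ H0 : ℕ, ∀ H : ℕ, H0 ≤ H →
      (({x : (l : Fin u) → Fin (n l + 1) → 𝓞 k | (∀ l j t, |B.repr (x l j) t| ≤ (H : ℤ)) ∧
        ¬ TateMQ k' K F a b (fun l => polA fun j => algebraMap (𝓞 k) k (x l j))}.ncard : ℕ) : ℝ) ≤
        η * (2 * H + 1) ^ (Fintype.card J * ∑ l, (n l + 1)) := by
  classical
  have hb := Pool.Agent.R939.HI.ne_sq_of_notNorm hNb
  have hd := Pool.Agent.R939.HI.ne_sq_of_notNorm hNd
  have g1 : D0 (⋃ l ∈ (Finset.univ : Finset (Fin u)),
      {x : (Σ l : Fin u, Fin (n l + 1)) × J → ℤ | ¬ AllIrr (polA fun j => kv B x ⟨l, j⟩)}) :=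
    D0.biUnion _ _ fun l _ => dens_allIrr B l (hn l)
  have g2 : D0 (⋃ l ∈ (Finset.univ : Finset (Fin u)),
      {x : (Σ l : Fin u, Fin (n l + 1)) × J → ℤ | kv B x ⟨l, Fin.last (n l)⟩ = 0}) :=
    D0.biUnion _ _ fun l _ => dens_lead B l
  have g3 : D0 (⋃ q ∈ ((Finset.univ : Finset (Fin u × Fin u)).filter fun q => q.1 ≠ q.2),
      {x : (Σ l : Fin u, Fin (n l + 1)) × J → ℤ |
        kv B x ⟨q.2, Fin.last (n q.2)⟩ * kv B x ⟨q.1, 0⟩ =
          kv B x ⟨q.1, Fin.last (n q.1)⟩ * kv B x ⟨q.2, 0⟩}) :=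
    D0.biUnion _ _ fun q hq => dens_cross B (Finset.mem_filter.1 hq).2 (hn q.1)
  obtain ⟨H0, hH⟩ := ((((dens_inert B hb hd hn).union g1).union g2).union g3) η hη
  refine ⟨H0, fun H hHH => ?_⟩
  have h1 := hH H hHH
  have hcard : Fintype.card ((Σ l : Fin u, Fin (n l + 1)) × J) =
      Fintype.card J * ∑ l, (n l + 1) := by
    rw [Fintype.card_prod, Fintype.card_sigma, Nat.mul_comm]
    simp
  rw [hcard] at h1
  refine le_trans ?_ h1
  let φ : ((l : Fin u) → Fin (n l + 1) → 𝓞 k) → ((Σ l : Fin u, Fin (n l + 1)) × J → ℤ) :=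
    fun y o => B.repr (y o.1.1 o.1.2) o.2
  have hkv : ∀ y (o : Σ l : Fin u, Fin (n l + 1)), kv B (φ y) o =
      algebraMap (𝓞 k) k (y o.1 o.2) := by
    intro y o
    show algebraMap (𝓞 k) k (elt B fun j => B.repr (y o.1 o.2) j) = _
    rw [← basis_elt B]
  have hinj : Function.Injective φ := by
    intro y z hyz
    funext l j
    apply FaithfulSMul.algebraMap_injective (𝓞 k) k
    have h3 := hkv y ⟨l, j⟩
    rw [hyz, hkv z ⟨l, j⟩] at h3
    exact h3.symm
  refine Nat.cast_le.2 ?_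
  rw [← Set.ncard_image_of_injective _ hinj]
  refine Set.ncard_le_ncard ?_ (box_fin _ H)
  rintro _ ⟨y, ⟨b1, hbad⟩, rfl⟩
  refine ⟨?_, ?_⟩
  · by_contra hcon
    simp only [Set.mem_union, not_or, Set.mem_iUnion, exists_prop, not_exists, not_and,
      Finset.mem_univ, forall_true_left] at hcon
    obtain ⟨⟨⟨k1, k2⟩, k3⟩, k4⟩ := hcon
    have hin : InertIn a b (∏ l, polA fun j => kv B (φ y) ⟨l, j⟩) := by
      by_contra h5
      exact k1 h5
    have hall : ∀ l : Fin u, AllIrr (polA fun j => kv B (φ y) ⟨l, j⟩) := by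
      intro l
      by_contra h5
      exact k2 l h5
    have hlead : ∀ l, kv B (φ y) ⟨l, Fin.last (n l)⟩ ≠ 0 := fun l h5 => k3 l h5
    have hna : ∀ l l', l ≠ l' → ¬ Associated (polA fun j => kv B (φ y) ⟨l, j⟩)
        (polA fun j => kv B (φ y) ⟨l', j⟩) := fun l l' hl =>
      not_assoc B hlead fun h5 => k4 (l, l') (Finset.mem_filter.2 ⟨Finset.mem_univ _, hl⟩) h5
    apply hbad
    simp only [hkv] at hin hall hna
    exact tateMQ hT hNb hNd hO hO' hin hall hna
  · rintro ⟨⟨l, j⟩, t⟩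
    exact b1 l j t

end main

end Pool.Agent.H571.BC
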