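import Pool.Agent.H571.BC.Cor

/-!
The corestriction of a locally trivial cocycle is locally trivial, and the corestriction of a fixed
class is fixed (up to a factor two).
-/

set_option autoImplicit false
set_option linter.all false

open WeierstrassCurve WeierstrassCurve.Affine
open scoped Classical

namespace Pool.Agent.H571.BC

open Pool.Agent.TH115.GD
open Pool.Agent.W309.TD (locConst_apply)

universe u

theorem dbl' {G M : Type*} [Group G] [AddCommGroup M] {ρ : G →* AddMonoid.End M}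
    {H1 H2 : Subgroup G} (h : Par H1 H2) {f : G → M}
    (hf : ∀ σ ∈ H1, ∀ τ ∈ H1, f (σ * τ) = f σ + ρ σ (f τ))
    {R : M} (hR : ∀ σ ∈ H2, f σ = ρ σ R - R) :
    ∃ Q : M, ∀ σ ∈ H1, (2 : ℕ) • f σ = ρ σ Q - Q := by
  by_cases hg : ∃ g, g ∈ H1 ∧ g ∉ H2
  · obtain ⟨g, hg1, hg2⟩ := hg
    exact ⟨_, fun σ hσ => dbl h hf hR hg1 hg2 hσ⟩
  · push Not at hg
    refine ⟨2 • R, fun σ hσ => ?_⟩
    rw [hR σ (hg σ hσ), map_nsmul, smul_sub]

/-- The Tate module version. -/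
theorem dblT {G M : Type*} [Group G] [AddCommGroup M] {ρ : G →* AddMonoid.End M}
    {H1 H2 : Subgroup G} (h : Par H1 H2) {f : ℕ → G → M}
    (hf : ∀ n, ∀ σ ∈ H1, ∀ τ ∈ H1, f n (σ * τ) = f n σ + ρ σ (f n τ))
    (h0 : ∀ σ ∈ H1, f 0 σ = 0) (h2 : ∀ n, ∀ σ ∈ H1, 2 • f (n + 1) σ = f n σ)
    {R : ℕ → M} (hR0 : R 0 = 0) (hR2 : ∀ n, 2 • R (n + 1) = R n)
    (hR : ∀ n, ∀ σ ∈ H2, f n σ = ρ σ (R n) - R n) :
    ∃ Q : ℕ → M, Q 0 = 0 ∧ (∀ n, 2 • Q (n + 1) = Q n) ∧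
      ∀ n, ∀ σ ∈ H1, (2 : ℕ) • f n σ = ρ σ (Q n) - Q n := by
  by_cases hg : ∃ g, g ∈ H1 ∧ g ∉ H2
  · obtain ⟨g, hg1, hg2⟩ := hg
    refine ⟨fun n => 2 • R n - (f n g - (ρ g (R n) - R n)), ?_, fun n => ?_,
      fun n σ hσ => dbl h (hf n) (hR n) hg1 hg2 hσ⟩
    · show 2 • R 0 - (f 0 g - (ρ g (R 0) - R 0)) = 0
      rw [hR0, h0 g hg1, map_zero]
      simp
    · show 2 • (2 • R (n + 1) - (f (n + 1) g - (ρ g (R (n + 1)) - R (n + 1)))) = _
      rw [smul_sub, smul_sub, smul_sub, ← map_nsmul, hR2, h2 n g hg1]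
  · push Not at hg
    refine ⟨fun n => 2 • R n, ?_, fun n => ?_, fun n σ hσ => ?_⟩
    · show 2 • R 0 = 0
      rw [hR0, smul_zero]
    · show 2 • (2 • R (n + 1)) = 2 • R n
      rw [hR2]
    · show 2 • f n σ = ρ σ (2 • R n) - 2 • R n
      rw [hR n σ (hg σ hσ), map_nsmul, smul_sub]

section loc

variable {K F Ω : Type u} [Field K] [Field F] [Field Ω] [Algebra K F] [Algebra F Ω] [Algebra K Ω]
  [IsScalarTower K F Ω] {W : WeierstrassCurve K}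
  {L1 L2 : IntermediateField K Ω} {s : Ω} {D : K} {g : Ω ≃ₐ[F] Ω}

variable {Fv Ω' : Type u} [Field Fv] [Field Ω'] [Algebra K Fv]
    [Algebra Fv Ω'] [Algebra K Ω'] [Algebra F Ω'] [IsScalarTower K Fv Ω'] [IsScalarTower K F Ω']

/-- the pairs of compatible automorphisms -/
def PairS (Fv : Type u) [Field Fv] [Algebra Fv Ω'] (ι : Ω →ₐ[F] Ω') (L : IntermediateField K Ω) :
    Subgroup ((Ω' ≃ₐ[Fv] Ω') × (Ω ≃ₐ[F] Ω)) where
  carrier := {q | Fx L q.2 ∧ ∀ x, q.1 (ι x) = ι (q.2 x)}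
  one_mem' := ⟨fun x _ => rfl, fun x => rfl⟩
  mul_mem' := fun {a b} ha hb => ⟨(FxS F L).mul_mem ha.1 hb.1, fun x => by
    show a.1 (b.1 (ι x)) = ι (a.2 (b.2 x))
    rw [hb.2, ha.2]⟩
  inv_mem' := fun {a} ha => ⟨(FxS F L).inv_mem ha.1, fun x => by
    show a.1.symm (ι x) = ι (a.2.symm x)
    rw [AlgEquiv.symm_apply_eq, ha.2, AlgEquiv.apply_symm_apply]⟩

theorem PairS.par (S : Step L1 L2 s D g) (ι : Ω →ₐ[F] Ω') :
    Par (PairS Fv ι L1) (PairS Fv ι L2) where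
  le := fun q hq => ⟨S.par.le hq.1, hq.2⟩
  mul := fun a ha b hb => by
    have h1 := S.par.mul a.2 ha.1 b.2 hb.1
    have h2 := (PairS Fv ι L1).mul_mem ha hb
    have h3 : (∀ x, (a * b).1 (ι x) = ι ((a * b).2 x)) := h2.2
    have e1 : a * b ∈ PairS Fv ι L2 ↔ a.2 * b.2 ∈ FxS F L2 := ⟨fun h => h.1, fun h => ⟨h, h3⟩⟩
    have e2 : a ∈ PairS Fv ι L2 ↔ a.2 ∈ FxS F L2 := ⟨fun h => h.1, fun h => ⟨h, ha.2⟩⟩
    have e3 : b ∈ PairS Fv ι L2 ↔ b.2 ∈ FxS F L2 := ⟨fun h => h.1, fun h => ⟨h, hb.2⟩⟩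
    rw [e1, e2, e3, h1]

theorem cor2_loc (S : Step L1 L2 s D g) {f : (Ω ≃ₐ[F] Ω) → Pt W Ω}
    (hf : ∀ σ τ, Fx L2 σ → Fx L2 τ → f (σ * τ) = f σ + act W (rs K σ) (f τ))
    (h : LocTrivOn W L2 Fv Ω' f) : LocTrivOn W L1 Fv Ω' (fun σ => 2 • cor W s g f σ) := by
  intro ι
  obtain ⟨P, hP⟩ := h ι
  obtain ⟨P', hP'⟩ := h (ι.comp g.toAlgHom)
  have hc := cor_mul S hf
  have key : ∀ q ∈ PairS Fv ι L2, act W (ι.restrictScalars K) (cor W s g f q.2) =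
      act W (rs K q.1) (P + P') - (P + P') := by
    rintro ⟨τ, σ⟩ ⟨hσ, hq⟩
    show act W (ι.restrictScalars K) (cor W s g f σ) = act W (rs K τ) (P + P') - (P + P')
    have h1 := hP τ σ hσ hq
    have h2 := hP' τ (g⁻¹ * σ * g) (S.par.conj S.g1 hσ) (fun x => by
      show τ (ι (g x)) = ι (g ((g⁻¹ * σ * g) x))
      have h3 : g ((g⁻¹ * σ * g) x) = σ (g x) := by
        show g (g.symm (σ (g x))) = σ (g x)
        rw [AlgEquiv.apply_symm_apply]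
      rw [h3]
      exact hq (g x))
    have h4 : (ι.comp g.toAlgHom).restrictScalars K = (ι.restrictScalars K).comp (rs K g) := rfl
    rw [h4, ← act_act] at h2
    rw [cor_in ((S.fF σ).1 hσ).2, map_add, h1, h2, map_add]
    abel
  obtain ⟨Q, hQ⟩ := dbl' (ρ := (rho (F := Fv) W).comp (MonoidHom.fst _ _)) (PairS.par S ι)
    (f := fun q => act W (ι.restrictScalars K) (cor W s g f q.2)) (fun a ha b hb => by
      show act W (ι.restrictScalars K) (cor W s g f (a.2 * b.2)) =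
        act W (ι.restrictScalars K) (cor W s g f a.2) +
          act W (rs K a.1) (act W (ι.restrictScalars K) (cor W s g f b.2))
      have h6 : (ι.restrictScalars K).comp (rs K a.2) = (rs K a.1).comp (ι.restrictScalars K) :=
        AlgHom.ext fun x => (ha.2 x).symm
      rw [hc _ _ ha.1 hb.1, map_add, act_act, h6, ← act_act]) (R := P + P') key
  refine ⟨Q, fun τ σ hσ hq => ?_⟩
  show act W (ι.restrictScalars K) (2 • cor W s g f σ) = act W (rs K τ) Q - Q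
  rw [map_nsmul]
  exact hQ (τ, σ) ⟨hσ, hq⟩

end loc

section inv

variable {K F Ω : Type u} [Field K] [Field F] [Field Ω] [Algebra K F] [Algebra F Ω] [Algebra K Ω]
  [IsScalarTower K F Ω] {W : WeierstrassCurve K}
  {L1 L2 : IntermediateField K Ω} {s : Ω} {D : K} {g : Ω ≃ₐ[F] Ω}

/-- the pairs `(σ, τ⁻¹ σ τ)` -/
def ConjS (F : Type u) {K Ω : Type u} [Field K] [Field F] [Field Ω] [Algebra K F] [Algebra F Ω]
    [Algebra K Ω] [IsScalarTower K F Ω] (τ : Ω ≃ₐ[K] Ω) (L : IntermediateField K Ω) :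
    Subgroup ((Ω ≃ₐ[F] Ω) × (Ω ≃ₐ[F] Ω)) where
  carrier := {q | Fx L q.1 ∧ Fx L q.2 ∧ ∀ x, τ (q.2 x) = q.1 (τ x)}
  one_mem' := ⟨fun x _ => rfl, fun x _ => rfl, fun x => rfl⟩
  mul_mem' := fun {a b} ha hb => ⟨(FxS F L).mul_mem ha.1 hb.1, (FxS F L).mul_mem ha.2.1 hb.2.1,
    fun x => by
      show τ (a.2 (b.2 x)) = a.1 (b.1 (τ x))
      rw [ha.2.2, hb.2.2]⟩
  inv_mem' := fun {a} ha => ⟨(FxS F L).inv_mem ha.1, (FxS F L).inv_mem ha.2.1, fun x => by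
    show τ (a.2.symm x) = a.1.symm (τ x)
    rw [eq_comm, AlgEquiv.symm_apply_eq, ← ha.2.2, AlgEquiv.apply_symm_apply]⟩

theorem fx_conj {τ : Ω ≃ₐ[K] Ω} {L : IntermediateField K Ω} (hτ : ∀ x ∈ L, τ x = x)
    {σ σ' : Ω ≃ₐ[F] Ω} (h : ∀ x, τ (σ' x) = σ (τ x)) (hσ : Fx L σ) : Fx L σ' := by
  intro x hx
  apply τ.injective
  rw [h, hτ x hx, hσ x hx]

theorem sg_conj (S : Step L1 L2 s D g) {τ : Ω ≃ₐ[K] Ω}
    {σ σ' : Ω ≃ₐ[F] Ω} (h : ∀ x, τ (σ' x) = σ (τ x)) : σ' s = s ↔ σ s = s := by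
  have h1 := h s
  have hne := S.ne
  rcases S.sgnK τ with h2 | h2 <;> rcases S.sgnF σ with h3 | h3 <;> rcases S.sgnF σ' with h4 | h4
  · exact iff_of_true h4 h3
  · rw [h4, h2, h3, map_neg, h2] at h1
    exact absurd h1.symm hne
  · rw [h4, h2, h3] at h1
    exact absurd h1 hne
  · rw [h3, h4]
  · exact iff_of_true h4 h3
  · rw [h4, h2, map_neg, map_neg, h3, h2, neg_neg] at h1
    exact absurd h1 hne
  · rw [h4, h2, map_neg, h3, neg_neg] at h1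
    exact absurd h1.symm hne
  · rw [h3, h4]

theorem ConjS.par (S : Step L1 L2 s D g) {τ : Ω ≃ₐ[K] Ω} (hτ : ∀ x ∈ L1, τ x = x) :
    Par (ConjS F τ L1) (ConjS F τ L2) where
  le := fun q hq => ⟨S.par.le hq.1, S.par.le hq.2.1, hq.2.2⟩
  mul := fun a ha b hb => by
    have h1 := S.par.mul a.1 ha.1 b.1 hb.1
    have h2 := (ConjS F τ L1).mul_mem ha hb
    have e : ∀ c ∈ ConjS F τ L1, (c ∈ ConjS F τ L2 ↔ c.1 ∈ FxS F L2) := by
      intro c hc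
      refine ⟨fun h => h.1, fun h => ⟨h, ?_, hc.2.2⟩⟩
      rw [S.fF]
      exact ⟨hc.2.1, (sg_conj S hc.2.2).2 ((S.fF _).1 h).2⟩
    rw [e _ h2, e _ ha, e _ hb, ← h1]
    rfl

theorem cor_inv_aux (S : Step L1 L2 s D g) {c : ℕ → (Ω ≃ₐ[F] Ω) → Pt W Ω}
    (h : IsInvOn W L2 c) {τ : Ω ≃ₐ[K] Ω} (hτ : ∀ x ∈ L1, τ x = x) :
    ∃ (m : ℕ) (R : ℕ → Pt W Ω), IsTM W R ∧ ∀ (n : ℕ) (σ σ' : Ω ≃ₐ[F] Ω), Fx L2 σ →
      (∀ x, τ (σ' x) = σ (τ x)) →
      2 ^ m • (act W (ak τ) (cor W s g (c n) σ') - cor W s g (c n) σ) =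
        act W (rs K σ) (R n) - R n := by
  let gK : Ω ≃ₐ[K] Ω := g.restrictScalars K
  have hgK : ∀ x, gK x = g x := fun x => rfl
  have hgL : ∀ x ∈ L1, gK x = x := S.g1
  have hgLi : ∀ x ∈ L1, gK.symm x = x := fun x hx => by
    rw [AlgEquiv.symm_apply_eq]; exact (hgL x hx).symm
  have hgs : gK s = -s := S.gs
  have hgsi : gK.symm s = -s := by
    rw [AlgEquiv.symm_apply_eq, map_neg, hgs, neg_neg]
  have hcomb : ∀ (m1 m2 : ℕ) (A B : Pt W Ω) (X Y : Pt W Ω) (σ : Ω ≃ₐ[F] Ω),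
      2 ^ m1 • A = act W (rs K σ) X - X → 2 ^ m2 • B = act W (rs K σ) Y - Y →
      2 ^ (m1 + m2) • (A + B) = act W (rs K σ) (2 ^ m2 • X + 2 ^ m1 • Y) -
        (2 ^ m2 • X + 2 ^ m1 • Y) := by
    intro m1 m2 A B X Y σ e1 e2
    have e3 : 2 ^ (m1 + m2) • (A + B) = 2 ^ m2 • (2 ^ m1 • A) + 2 ^ m1 • (2 ^ m2 • B) := by
      rw [← mul_smul, ← mul_smul, ← pow_add, ← pow_add, add_comm m2 m1, smul_add]
    rw [e3, e1, e2, map_add, map_nsmul, map_nsmul, smul_sub, smul_sub]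
    abel
  have hTM : ∀ (m1 m2 : ℕ) (X Y : ℕ → Pt W Ω), IsTM W X → IsTM W Y →
      IsTM W (fun n => 2 ^ m2 • X n + 2 ^ m1 • Y n) := by
    intro m1 m2 X Y hX hY
    refine ⟨?_, fun n => ?_⟩
    · show 2 ^ m2 • X 0 + 2 ^ m1 • Y 0 = 0
      rw [hX.zero, hY.zero, smul_zero, smul_zero, add_zero]
    · show 2 • (2 ^ m2 • X (n + 1) + 2 ^ m1 • Y (n + 1)) = 2 ^ m2 • X n + 2 ^ m1 • Y n
      rw [smul_add, smul_comm 2, smul_comm 2, hX.two, hY.two]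
  have hTMg : ∀ (X : ℕ → Pt W Ω), IsTM W X → IsTM W (fun n => act W (rs K g) (X n)) := by
    intro X hX
    refine ⟨?_, fun n => ?_⟩
    · show act W (rs K g) (X 0) = 0
      rw [hX.zero, map_zero]
    · show 2 • act W (rs K g) (X (n + 1)) = act W (rs K g) (X n)
      rw [← map_nsmul, hX.two]
  have hgc : ∀ σ : Ω ≃ₐ[F] Ω, (rs K g).comp (rs K (g⁻¹ * σ * g)) = (rs K σ).comp (rs K g) :=
    fun σ => AlgHom.ext fun x => by
      show g (g.symm (σ (g x))) = σ (g x)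
      rw [AlgEquiv.apply_symm_apply]
  rcases S.sgnK τ with hs | hs
  · -- `τ` fixes `L2`
    obtain ⟨m1, Q1, hQ1, e1⟩ := h τ (S.fK τ hτ hs)
    obtain ⟨m2, Q2, hQ2, e2⟩ := h (gK⁻¹ * τ * gK) (S.fK _ (fun x hx => by
      show gK.symm (τ (gK x)) = x
      rw [hgL x hx, hτ x hx, hgLi x hx]) (by
      show gK.symm (τ (gK s)) = s
      rw [hgs, map_neg, hs, map_neg, hgsi, neg_neg]))
    refine ⟨m1 + m2, _, hTM m1 m2 Q1 _ hQ1 (hTMg Q2 hQ2), fun n σ σ' hσ hq => ?_⟩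
    have hσ' : Fx L2 σ' := by
      rw [S.fF]
      exact ⟨fx_conj hτ hq ((S.fF σ).1 hσ).1, (sg_conj S hq).2 ((S.fF σ).1 hσ).2⟩
    have a1 := e1 n σ σ' hσ hq
    have a2 := e2 n (g⁻¹ * σ * g) (g⁻¹ * σ' * g) (S.par.conj S.g1 hσ) (fun x => by
      show gK.symm (τ (gK (g.symm (σ' (g x))))) = g.symm (σ (g (gK.symm (τ (gK x)))))
      have b1 : gK (g.symm (σ' (g x))) = σ' (g x) := g.apply_symm_apply _
      have b2 : g (gK.symm (τ (gK x))) = τ (g x) := g.apply_symm_apply _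
      rw [b1, b2, hq]
      rfl)
    have a3 : act W (rs K g) (act W (ak (gK⁻¹ * τ * gK)) (c n (g⁻¹ * σ' * g))) =
        act W (ak τ) (act W (rs K g) (c n (g⁻¹ * σ' * g))) := by
      rw [act_act, act_act]
      congr 2
      refine AlgHom.ext fun x => ?_
      show g (g.symm (τ (g x))) = τ (g x)
      rw [AlgEquiv.apply_symm_apply]
    have a4 := congrArg (act W (rs K g)) a2
    rw [map_nsmul, map_sub, map_sub, a3, act_act W (rs K (g⁻¹ * σ * g)) (rs K g), hgc σ,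
      ← act_act] at a4
    rw [cor_in ((S.fF σ).1 hσ).2, cor_in ((S.fF σ').1 hσ').2, map_add]
    rw [← hcomb m1 m2 _ _ _ _ σ a1 a4]
    congr 1
    abel
  · -- `τ` maps `s` to `-s`
    obtain ⟨m1, Q1, hQ1, e1⟩ := h (gK⁻¹ * τ) (S.fK _ (fun x hx => by
      show gK.symm (τ x) = x
      rw [hτ x hx, hgLi x hx]) (by
      show gK.symm (τ s) = s
      rw [hs, map_neg, hgsi, neg_neg]))
    obtain ⟨m2, Q2, hQ2, e2⟩ := h (τ * gK) (S.fK _ (fun x hx => by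
      show τ (gK x) = x
      rw [hgL x hx, hτ x hx]) (by
      show τ (gK s) = s
      rw [hgs, map_neg, hs, neg_neg]))
    refine ⟨m1 + m2, _, hTM m1 m2 _ Q2 (hTMg Q1 hQ1) hQ2, fun n σ σ' hσ hq => ?_⟩
    have hσ' : Fx L2 σ' := by
      rw [S.fF]
      exact ⟨fx_conj hτ hq ((S.fF σ).1 hσ).1, (sg_conj S hq).2 ((S.fF σ).1 hσ).2⟩
    have a1 := e1 n (g⁻¹ * σ * g) σ' (S.par.conj S.g1 hσ) (fun x => by
      show gK.symm (τ (σ' x)) = g.symm (σ (g (gK.symm (τ x))))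
      have b2 : g (gK.symm (τ x)) = τ x := g.apply_symm_apply _
      rw [b2, hq]
      rfl)
    have a2 := e2 n σ (g⁻¹ * σ' * g) hσ (fun x => by
      show τ (gK (g.symm (σ' (g x)))) = σ (τ (gK x))
      have b1 : gK (g.symm (σ' (g x))) = σ' (g x) := g.apply_symm_apply _
      rw [b1, hq]
      rfl)
    have a3 : act W (rs K g) (act W (ak (gK⁻¹ * τ)) (c n σ')) = act W (ak τ) (c n σ') := by
      rw [act_act]
      congr 2
      refine AlgHom.ext fun x => ?_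
      show g (g.symm (τ x)) = τ x
      rw [AlgEquiv.apply_symm_apply]
    have a4 := congrArg (act W (rs K g)) a1
    rw [map_nsmul, map_sub, map_sub, a3, act_act W (rs K (g⁻¹ * σ * g)) (rs K g), hgc σ,
      ← act_act] at a4
    have a5 : act W (ak (τ * gK)) (c n (g⁻¹ * σ' * g)) =
        act W (ak τ) (act W (rs K g) (c n (g⁻¹ * σ' * g))) := by
      rw [act_act]
      rfl
    rw [a5] at a2
    rw [cor_in ((S.fF σ).1 hσ).2, cor_in ((S.fF σ').1 hσ').2, map_add]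
    rw [← hcomb m1 m2 _ _ _ _ σ a4 a2]
    congr 1
    abel

theorem cor2_inv (S : Step L1 L2 s D g) {c : ℕ → (Ω ≃ₐ[F] Ω) → Pt W Ω}
    (hc : IsTCOn W L2 c) (h : IsInvOn W L2 c) : IsInvOn W L1 (cor2 W s g c) := by
  intro τ hτ
  obtain ⟨m, R, hR, e⟩ := cor_inv_aux S h hτ
  obtain ⟨Q, hQ0, hQ2, hQ⟩ := dblT (ρ := (rho (F := F) W).comp (MonoidHom.fst _ _))
    (ConjS.par S hτ)
    (f := fun n q => 2 ^ m • (act W (ak τ) (cor W s g (c n) q.2) - cor W s g (c n) q.1))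
    (fun n a ha b hb => by
      show 2 ^ m • (act W (ak τ) (cor W s g (c n) (a.2 * b.2)) - cor W s g (c n) (a.1 * b.1)) =
        2 ^ m • (act W (ak τ) (cor W s g (c n) a.2) - cor W s g (c n) a.1) +
        act W (rs K a.1) (2 ^ m • (act W (ak τ) (cor W s g (c n) b.2) - cor W s g (c n) b.1))
      have h6 : (ak τ).comp (rs K a.2) = (rs K a.1).comp (ak τ) :=
        AlgHom.ext fun x => ha.2.2 x
      rw [cor_mul S (hc.coc n).mul _ _ ha.1 hb.1, cor_mul S (hc.coc n).mul _ _ ha.2.1 hb.2.1,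
        map_add, act_act, h6, ← act_act, map_nsmul, ← smul_add, map_sub]
      congr 1
      abel)
    (fun a ha => by
      show 2 ^ m • (act W (ak τ) (cor W s g (c 0) a.2) - cor W s g (c 0) a.1) = 0
      rw [cor_zero S hc.zero ha.1, cor_zero S hc.zero ha.2.1, map_zero, sub_zero, smul_zero])
    (fun n a ha => by
      show 2 • (2 ^ m • (act W (ak τ) (cor W s g (c (n + 1)) a.2) - cor W s g (c (n + 1)) a.1)) =
        2 ^ m • (act W (ak τ) (cor W s g (c n) a.2) - cor W s g (c n) a.1)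
      rw [smul_comm, smul_sub, ← map_nsmul, cor_two S (hc.two n) ha.1, cor_two S (hc.two n) ha.2.1])
    hR.zero hR.two (fun n a ha => e n a.1 a.2 ha.1 ha.2.2)
  refine ⟨m, Q, ⟨hQ0, hQ2⟩, fun n σ σ' hσ hq => ?_⟩
  have h1 := hQ n (σ, σ') ⟨hσ, fx_conj hτ hq hσ, hq⟩
  have h2 : (2 : ℕ) • (2 ^ m • (act W (ak τ) (cor W s g (c n) σ') - cor W s g (c n) σ)) =
    act W (rs K σ) (Q n) - Q n := h1
  rw [← h2]
  show 2 ^ m • (act W (ak τ) (2 • cor W s g (c n) σ') - 2 • cor W s g (c n) σ) = _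
  rw [map_nsmul, ← smul_sub, smul_comm]

end inv

end Pool.Agent.H571.BC
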