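import Pool.Agent.H571.BC.Tow

/-!
The Tate conjecture for elliptic surfaces over multiquadratic coverings of the line: the general
criterion.
-/

set_option autoImplicit false
set_option linter.all false

open Polynomial IsDedekindDomain WeierstrassCurve WeierstrassCurve.Affine
open scoped Classical

namespace Pool.Agent.H571.BC

open Pool.Agent.TH115.GD

section fix

variable {K Ω : Type} [Field K] [Field Ω] [Algebra K Ω]

theorem fix_adjoin (τ : Ω ≃ₐ[K] Ω) {T : Set Ω} (h : ∀ x ∈ T, τ x = x) :
    ∀ x ∈ IntermediateField.adjoin K T, τ x = x := by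
  intro x hx
  induction hx using IntermediateField.adjoin_induction with
  | mem x hx => exact h x hx
  | algebraMap x => exact τ.commutes x
  | add x y hx hy h1 h2 => rw [map_add, h1, h2]
  | inv x hx h1 => rw [map_inv₀, h1]
  | mul x y hx hy h1 h2 => rw [map_mul, h1, h2]

end fix

section tower

variable {K F : Type} [Field K] [Field F] [Algebra K F] {k' : Type} [Field k'] [Algebra k'[X] F]
  [IsFractionRing k'[X] F]

/-- the field generated by some of the square roots -/
noncomputable def adj (K : Type) {F I : Type} [Field K] [Field F] [Algebra K F] (s : I → Sep F)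
    (T : Finset I) : IntermediateField K (Sep F) := IntermediateField.adjoin K (s '' (T : Set I))

theorem mem_adj {I : Type} {s : I → Sep F} {T : Finset I} {i : I} (h : i ∈ T) : s i ∈ adj K s T :=
  IntermediateField.subset_adjoin K _ ⟨i, h, rfl⟩

theorem adj_mono {I : Type} {s : I → Sep F} {T T' : Finset I} (h : T ⊆ T') : adj K s T ≤ adj K s T' :=
  IntermediateField.adjoin.mono K _ _ (Set.image_mono (by exact_mod_cast h))

theorem fx_adj {I : Type} {s : I → Sep F} {T : Finset I} (σ : Sep F ≃ₐ[F] Sep F) :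
    Fx (adj K s T) σ ↔ ∀ i ∈ T, σ (s i) = s i := by
  constructor
  · intro h i hi
    exact h _ (mem_adj hi)
  · intro h
    refine fix_adjoin (σ.restrictScalars K) ?_
    rintro _ ⟨i, hi, rfl⟩
    exact h i hi

theorem step_adj {I : Type} {s : I → Sep F} {D : I → K}
    (hs : ∀ i, s i ^ 2 = algebraMap K (Sep F) (D i)) (h2 : (2 : K) ≠ 0) (hD : ∀ i, D i ≠ 0)
    {T : Finset I} {a : I} (ha : a ∉ T)
    (hsq : ∀ J ⊆ insert a T, J.Nonempty → ¬ IsSquare (algebraMap K F (∏ i ∈ J, D i))) :
    ∃ g : Sep F ≃ₐ[F] Sep F, Step (adj K s T) (adj K s (insert a T)) (s a) (D a) g := by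
  have hs0 : ∀ i, s i ≠ 0 := by
    intro i h0
    have h1 := hs i
    rw [h0, zero_pow two_ne_zero] at h1
    exact hD i ((map_eq_zero _).1 h1.symm)
  have h2' : (2 : Sep F) ≠ 0 := by
    rw [← map_ofNat (algebraMap K (Sep F)) 2]
    exact (_root_.map_ne_zero _).2 h2
  obtain ⟨g, g1, g2⟩ := exists_flip (F := F) h2' s (d := fun i => algebraMap K F (D i))
    (fun i => by rw [hs, IsScalarTower.algebraMap_apply K F (Sep F)]) hs0 ha (fun J hJ hne => by
      rw [← map_prod]
      exact hsq J hJ hne)
  refine ⟨g, hs a, ?_, ?_, ?_, (fx_adj g).2 g1, g2⟩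
  · intro h
    have h3 : 2 * s a = 0 := by linear_combination h
    exact (mul_ne_zero h2' (hs0 a)) h3
  · intro σ
    rw [fx_adj, fx_adj]
    constructor
    · intro h
      exact ⟨fun i hi => h i (Finset.mem_insert_of_mem hi), h a (Finset.mem_insert_self _ _)⟩
    · rintro ⟨h1, h3⟩ i hi
      rcases Finset.mem_insert.1 hi with rfl | hi
      · exact h3
      · exact h1 i hi
  · intro τ h1 h3
    refine fix_adjoin τ ?_
    rintro _ ⟨i, hi, rfl⟩
    rcases Finset.mem_insert.1 (Finset.mem_coe.1 hi) with rfl | hi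
    · exact h3
    · exact h1 _ (mem_adj hi)

theorem disc_tw {A B : K} (h : (crvT A B).Δ ≠ 0) {D : K} (hD : D ≠ 0) :
    (crvT (A * D) (B * D ^ 2)).Δ ≠ 0 := by
  have e : (crvT (A * D) (B * D ^ 2)).Δ = D ^ 6 * (crvT A B).Δ := by
    simp only [WeierstrassCurve.Δ, WeierstrassCurve.b₂, WeierstrassCurve.b₄, WeierstrassCurve.b₆,
      WeierstrassCurve.b₈, crvT]
    ring
  rw [e]
  exact mul_ne_zero (pow_ne_zero _ hD) h

/-- **Multiquadratic towers.** The Tate conjecture over the field generated by square roots of the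
`D i` follows from the Tate conjecture over `K` for the quadratic twists by the products of the
`D i`. -/
theorem tower {I : Type} {s : I → Sep F} {D : I → K}
    (hs : ∀ i, s i ^ 2 = algebraMap K (Sep F) (D i)) (h2 : (2 : K) ≠ 0) (hD : ∀ i, D i ≠ 0)
    {A B : K} (hΔ : (crvT A B).Δ ≠ 0) (T : Finset I)
    (hsq : ∀ J ⊆ T, J.Nonempty → ¬ IsSquare (algebraMap K F (∏ i ∈ J, D i))) :
    ∀ T0 : Finset I, Disjoint T0 T → (∀ J, T0 ⊆ J → J ⊆ T0 ∪ T →
      TateAtTwo (F := F) k' (crvT (A * ∏ i ∈ J, D i) (B * (∏ i ∈ J, D i) ^ 2))) →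
      TateOver (F := F) k' (crvT (A * ∏ i ∈ T0, D i) (B * (∏ i ∈ T0, D i) ^ 2)) (adj K s T) := by
  induction T using Finset.induction_on with
  | empty =>
    intro T0 _ h
    have h1 : adj K s (∅ : Finset I) = ⊥ := by
      rw [adj, Finset.coe_empty, Set.image_empty, IntermediateField.adjoin_empty]
    rw [h1]
    exact base (h T0 le_rfl (by simp))
  | insert a T ha ih =>
    intro T0 hd h
    obtain ⟨g, S⟩ := step_adj hs h2 hD ha hsq
    have hP : (∏ i ∈ T0, D i) ≠ 0 := Finset.prod_ne_zero_iff.2 fun i _ => hD i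
    have hsq' : ∀ J ⊆ T, J.Nonempty → ¬ IsSquare (algebraMap K F (∏ i ∈ J, D i)) :=
      fun J hJ => hsq J (hJ.trans (Finset.subset_insert _ _))
    have ha0 : a ∉ T0 := fun h3 => (Finset.disjoint_left.1 hd) h3 (Finset.mem_insert_self _ _)
    have hd0 : Disjoint T0 T := hd.mono_right (Finset.subset_insert _ _)
    have i1 := ih hsq' T0 hd0 (fun J h3 h4 => h J h3 (h4.trans (by
      exact Finset.union_subset_union le_rfl (Finset.subset_insert _ _))))
    have i2 := ih hsq' (insert a T0) (by
      rw [Finset.disjoint_insert_left]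
      exact ⟨ha, hd0⟩) (fun J h3 h4 => h J ((Finset.subset_insert _ _).trans h3) (h4.trans (by
        intro x hx
        rcases Finset.mem_union.1 hx with hx | hx
        · rcases Finset.mem_insert.1 hx with rfl | hx
          · exact Finset.mem_union_right _ (Finset.mem_insert_self _ _)
          · exact Finset.mem_union_left _ hx
        · exact Finset.mem_union_right _ (Finset.mem_insert_of_mem hx))))
    have e1 : A * ∏ i ∈ insert a T0, D i = (A * ∏ i ∈ T0, D i) * D a := by
      rw [Finset.prod_insert ha0]; ring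
    have e2 : B * (∏ i ∈ insert a T0, D i) ^ 2 = (B * (∏ i ∈ T0, D i) ^ 2) * D a ^ 2 := by
      rw [Finset.prod_insert ha0]; ring
    rw [e1, e2] at i2
    exact step S (hD a) (disc_tw hΔ hP) (adj_mono (Finset.subset_insert _ _))
      (mem_adj (Finset.mem_insert_self _ _)) i1 i2

end tower

end Pool.Agent.H571.BC
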