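import Pool.Agent.H571.BC.Twi

/-!
The Tate conjecture over `L1(√D)` follows from the Tate conjecture over `L1` for the curve and for its
quadratic twist by `D`.
-/

set_option autoImplicit false
set_option linter.all false

open Polynomial IsDedekindDomain WeierstrassCurve WeierstrassCurve.Affine
open scoped Classical

namespace Pool.Agent.H571.BC

open Pool.Agent.TH115.GD

universe u

section gen

variable {K F Ω : Type u} [Field K] [Field F] [Field Ω] [Algebra K F] [Algebra F Ω] [Algebra K Ω]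
  [IsScalarTower K F Ω] {A B D : K} (hD : D ≠ 0) (hΔ : (crvT A B).Δ ≠ 0)
  {L : IntermediateField K Ω} {s : Ω} (hs : s ^ 2 = algebraMap K Ω D) (hL : s ∈ L)

include hL

theorem tw_tc {c : ℕ → (Ω ≃ₐ[F] Ω) → Pt (crvT A B) Ω} (hc : IsTCOn (crvT A B) L c) :
    IsTCOn (crvT (A * D) (B * D ^ 2)) L (fun n σ => tw hD hΔ hs (c n σ)) where
  coc := fun n => ⟨(hc.coc n).lc.comp _, fun σ τ hσ hτ => by
    show tw hD hΔ hs (c n (σ * τ)) = tw hD hΔ hs (c n σ) +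
      act (crvT (A * D) (B * D ^ 2)) (rs K σ) (tw hD hΔ hs (c n τ))
    rw [(hc.coc n).mul σ τ hσ hτ, map_add, tw_act hD hΔ (rs K σ) hs hs (hσ s hL)]⟩
  zero := fun σ hσ => by
    show tw hD hΔ hs (c 0 σ) = 0
    rw [hc.zero σ hσ, map_zero]
  two := fun n σ hσ => by
    show 2 • tw hD hΔ hs (c (n + 1) σ) = tw hD hΔ hs (c n σ)
    rw [← map_nsmul, hc.two n σ hσ]

theorem tw_inv {c : ℕ → (Ω ≃ₐ[F] Ω) → Pt (crvT A B) Ω} (hc : IsInvOn (crvT A B) L c) :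
    IsInvOn (crvT (A * D) (B * D ^ 2)) L (fun n σ => tw hD hΔ hs (c n σ)) := by
  intro τ hτ
  obtain ⟨m, Q, hQ, e⟩ := hc τ hτ
  refine ⟨m, fun n => tw hD hΔ hs (Q n), ⟨?_, fun n => ?_⟩, fun n σ σ' hσ hq => ?_⟩
  · show tw hD hΔ hs (Q 0) = 0
    rw [hQ.zero, map_zero]
  · show 2 • tw hD hΔ hs (Q (n + 1)) = tw hD hΔ hs (Q n)
    rw [← map_nsmul, hQ.two]
  · show 2 ^ m • (act (crvT (A * D) (B * D ^ 2)) (ak τ) (tw hD hΔ hs (c n σ')) -
      tw hD hΔ hs (c n σ)) = act (crvT (A * D) (B * D ^ 2)) (rs K σ) (tw hD hΔ hs (Q n)) -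
      tw hD hΔ hs (Q n)
    rw [tw_act hD hΔ (ak τ) hs hs (hτ s hL), tw_act hD hΔ (rs K σ) hs hs (hσ s hL), ← map_sub,
      ← map_sub, ← map_nsmul, e n σ σ' hσ hq]

theorem tw_loc {Fv Ω' : Type u} [Field Fv] [Field Ω'] [Algebra K Fv]
    [Algebra Fv Ω'] [Algebra K Ω'] [Algebra F Ω'] [IsScalarTower K Fv Ω'] [IsScalarTower K F Ω']
    {f : (Ω ≃ₐ[F] Ω) → Pt (crvT A B) Ω} (h : LocTrivOn (crvT A B) L Fv Ω' f) :
    LocTrivOn (crvT (A * D) (B * D ^ 2)) L Fv Ω' (fun σ => tw hD hΔ hs (f σ)) := by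
  intro ι
  obtain ⟨P, hP⟩ := h ι
  have hs' : (ι.restrictScalars K s) ^ 2 = algebraMap K Ω' D := by
    rw [← map_pow, hs, AlgHom.commutes]
  refine ⟨tw hD hΔ hs' P, fun τ σ hσ hq => ?_⟩
  have h1 : rs K τ (ι.restrictScalars K s) = ι.restrictScalars K s := by
    show τ (ι s) = ι s
    rw [hq, hσ s hL]
  rw [tw_act hD hΔ (ι.restrictScalars K) hs hs' rfl, tw_act hD hΔ (rs K τ) hs' hs' h1,
    ← map_sub, hP τ σ hσ hq]

end gen

section pull

variable {K : Type u} [Field K] {A B D : K} (hD : D ≠ 0) (hΔ : (crvT A B).Δ ≠ 0)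

theorem pull {M1 M Ω : Type u} [Field M1] [Algebra K M1] [Field M] [Algebra K M] [Field Ω]
    [Algebra K Ω] (i : M1 →ₐ[K] M) (φ : M →ₐ[K] Ω) (φ1 : M1 →ₐ[K] Ω) (h1 : φ.comp i = φ1)
    {s' : M} {s : Ω} (hφ : φ s' = s) (hs : s ^ 2 = algebraMap K Ω D)
    (P1 : Pt (crvT A B) M1) (P2 : Pt (crvT (A * D) (B * D ^ 2)) M1) (a b : ℕ) :
    ∃ P : Pt (crvT A B) M, act (crvT A B) φ P = a • act (crvT A B) φ1 P1 +
      b • (tw hD hΔ hs).symm (act (crvT (A * D) (B * D ^ 2)) φ1 P2) := by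
  have hs' : s' ^ 2 = algebraMap K M D := by
    have h2 : φ (s' ^ 2) = φ (algebraMap K M D) := by
      rw [map_pow, hφ, hs, AlgHom.commutes]
    exact φ.injective h2
  refine ⟨a • act (crvT A B) i P1 + b • (tw hD hΔ hs').symm (act _ i P2), ?_⟩
  have e1 : act (crvT A B) φ ((tw hD hΔ hs').symm (act _ i P2)) =
      (tw hD hΔ hs).symm (act _ φ1 P2) := by
    rw [AddEquiv.eq_symm_apply, ← tw_act hD hΔ φ hs' hs hφ, AddEquiv.apply_symm_apply, act_act, h1]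
  rw [map_add, map_nsmul, map_nsmul, e1, act_act, h1]

end pull

section stp

variable {K F : Type} [Field K] [Field F] [Algebra K F] {k' : Type} [Field k'] [Algebra k'[X] F]
  [IsFractionRing k'[X] F] {A B D : K}
  {L1 L2 : IntermediateField K (Sep F)} {s : Sep F} {g : Sep F ≃ₐ[F] Sep F}

theorem cor2_locally (W : WeierstrassCurve K) (S : Step L1 L2 s D g)
    {c : ℕ → (Sep F ≃ₐ[F] Sep F) → Pt W (Sep F)}
    (hc : IsTCOn W L2 c) (h : ∀ n, LocallyTrivialOn k' W L2 (c n)) (n : ℕ) :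
    LocallyTrivialOn k' W L1 (cor2 W s g c n) :=
  ⟨fun v => cor2_loc S (hc.coc n).mul ((h n).1 v), cor2_loc S (hc.coc n).mul (h n).2⟩

theorem step (S : Step L1 L2 s D g) (hD : D ≠ 0) (hΔ : (crvT A B).Δ ≠ 0) (hle : L1 ≤ L2)
    (hL : s ∈ L2) (h1 : TateOver (F := F) k' (crvT A B) L1)
    (h2 : TateOver (F := F) k' (crvT (A * D) (B * D ^ 2)) L1) :
    TateOver (F := F) k' (crvT A B) L2 := by
  intro c hc hloc hinv
  have hs := S.sq
  -- the two corestrictions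
  obtain ⟨m1, a1⟩ := h1 (cor2 (crvT A B) s g c) (cor2_tc S hc) (cor2_locally _ S hc hloc)
    (cor2_inv S hc hinv)
  have hc' := tw_tc hD hΔ hs hL hc
  obtain ⟨m2, a2⟩ := h2 (cor2 (crvT (A * D) (B * D ^ 2)) s g fun n σ => tw hD hΔ hs (c n σ))
    (cor2_tc S hc') (cor2_locally _ S hc' fun n =>
      ⟨fun v => tw_loc hD hΔ hs hL ((hloc n).1 v), tw_loc hD hΔ hs hL (hloc n).2⟩)
    (cor2_inv S hc' (tw_inv hD hΔ hs hL hinv))
  refine ⟨m1 + m2 + 2, fun n => ?_⟩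
  obtain ⟨P1, R1, b1, d1⟩ := a1 n
  obtain ⟨P2, R2, b2, d2⟩ := a2 n
  -- pull back to the curve
  obtain ⟨P, e1⟩ := pull hD hΔ (IntermediateField.inclusion hle) L2.val L1.val rfl
    (s' := ⟨s, hL⟩) rfl hs P1 P2 (2 ^ m2) (2 ^ m1)
  refine ⟨P, 2 ^ m2 • R1 + 2 ^ m1 • (tw hD hΔ hs).symm R2, ?_, fun σ hσ => ?_⟩
  · rw [e1, ← b2, map_nsmul, smul_add, smul_comm (2 ^ n), smul_comm (2 ^ n), b1]
    rfl
  · have hσ1 : Fx L1 σ := ((S.fF σ).1 hσ).1
    have hσs : σ s = s := ((S.fF σ).1 hσ).2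
    have f1 := d1 σ hσ1
    have f2 := d2 σ hσ1
    have g1 : cor2 (crvT A B) s g c n σ =
        2 • (c n σ + act (crvT A B) (rs K g) (c n (g⁻¹ * σ * g))) := by
      show 2 • cor _ s g (c n) σ = _
      rw [cor_in hσs]
    have g2 : cor2 (crvT (A * D) (B * D ^ 2)) s g (fun n σ => tw hD hΔ hs (c n σ)) n σ =
        tw hD hΔ hs (2 • (c n σ - act (crvT A B) (rs K g) (c n (g⁻¹ * σ * g)))) := by
      show 2 • cor _ s g (fun σ => tw hD hΔ hs (c n σ)) σ = _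
      have hs2 : (-s) ^ 2 = algebraMap K (Sep F) D := by rw [neg_sq, hs]
      rw [cor_in hσs, tw_act hD hΔ (rs K g) hs hs2 S.gs, tw_neg hD hΔ hs hs2 rfl, map_nsmul,
        map_sub, sub_eq_add_neg]
    rw [g2] at f2
    have f3 := congrArg (tw hD hΔ hs).symm f2
    rw [map_nsmul, AddEquiv.symm_apply_apply, map_sub] at f3
    have f4 : (tw hD hΔ hs).symm (act (crvT (A * D) (B * D ^ 2)) (rs K σ) R2) =
        act (crvT A B) (rs K σ) ((tw hD hΔ hs).symm R2) := by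
      rw [AddEquiv.symm_apply_eq, ← tw_act hD hΔ (rs K σ) hs hs hσs, AddEquiv.apply_symm_apply]
    rw [f4] at f3
    rw [g1] at f1
    have f5 : 2 ^ (m1 + m2 + 2) • c n σ =
        2 ^ m2 • (2 ^ m1 • (2 • (c n σ + act (crvT A B) (rs K g) (c n (g⁻¹ * σ * g))))) +
        2 ^ m1 • (2 ^ m2 • (2 • (c n σ - act (crvT A B) (rs K g) (c n (g⁻¹ * σ * g))))) := by
      rw [← mul_smul, ← mul_smul, ← mul_smul, ← mul_smul, mul_comm (2 ^ m2) (2 ^ m1), ← smul_add,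
        ← pow_add, ← pow_succ]
      have : c n σ + act (crvT A B) (rs K g) (c n (g⁻¹ * σ * g)) +
          (c n σ - act (crvT A B) (rs K g) (c n (g⁻¹ * σ * g))) = 2 • c n σ := by
        rw [two_nsmul]; abel
      rw [this, ← mul_smul, ← pow_succ]
    rw [f5, f1, f3, map_add, map_nsmul, map_nsmul, smul_sub, smul_sub]
    abel

end stp

end Pool.Agent.H571.BC
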