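import Pool.Agent.H571.BC.Stp

/-!
Towers of quadratic extensions.
-/

set_option autoImplicit false
set_option linter.all false

open Polynomial IsDedekindDomain WeierstrassCurve WeierstrassCurve.Affine
open scoped Classical

namespace Pool.Agent.H571.BC

open Pool.Agent.TH115.GD

section signs

variable {F Ω : Type} [Field F] [Field Ω] [Algebra F Ω] [IsGalois F Ω] {I : Type}

/-- If all automorphisms which fix the square roots `s i`, `i ∈ T`, fix the square root `x`, then the
product of `x` and of some of the `s i` is in `F`. -/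
theorem fixed_prod (s : I → Ω) (hs : ∀ i (σ : Ω ≃ₐ[F] Ω), σ (s i) = s i ∨ σ (s i) = - s i)
    (T : Finset I) : ∀ x : Ω, (∀ σ : Ω ≃ₐ[F] Ω, σ x = x ∨ σ x = -x) →
      (∀ σ : Ω ≃ₐ[F] Ω, (∀ i ∈ T, σ (s i) = s i) → σ x = x) →
      ∃ J ⊆ T, ∀ σ : Ω ≃ₐ[F] Ω, σ (x * ∏ i ∈ J, s i) = x * ∏ i ∈ J, s i := by
  induction T using Finset.induction_on with
  | empty =>
    intro x hx h
    refine ⟨∅, le_rfl, fun σ => ?_⟩
    rw [Finset.prod_empty, mul_one]
    exact h σ (fun i hi => absurd hi (Finset.notMem_empty i))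
  | insert a T ha ih =>
    intro x hx h
    by_cases h0 : ∀ σ : Ω ≃ₐ[F] Ω, (∀ i ∈ T, σ (s i) = s i) → σ x = x
    · obtain ⟨J, hJ, e⟩ := ih x hx h0
      exact ⟨J, hJ.trans (Finset.subset_insert _ _), e⟩
    · push Not at h0
      obtain ⟨σ0, h1, h2⟩ := h0
      have h3 : σ0 x = -x := (hx σ0).resolve_left h2
      have h4 : σ0 (s a) = - s a := by
        refine (hs a σ0).resolve_left fun h5 => h2 (h σ0 fun i hi => ?_)
        rcases Finset.mem_insert.1 hi with rfl | hi
        · exact h5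
        · exact h1 i hi
      obtain ⟨J, hJ, e⟩ := ih (x * s a) (fun σ => by
        rcases hx σ with h5 | h5 <;> rcases hs a σ with h6 | h6 <;> rw [map_mul, h5, h6] <;> simp)
        (fun σ hσ => by
          rcases hs a σ with h5 | h5
          · rw [map_mul, h5, h σ (fun i hi => by
              rcases Finset.mem_insert.1 hi with rfl | hi
              · exact h5
              · exact hσ i hi)]
          · have h6 := h (σ * σ0) (fun i hi => by
              show σ (σ0 (s i)) = s i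
              rcases Finset.mem_insert.1 hi with rfl | hi
              · rw [h4, map_neg, h5, neg_neg]
              · rw [h1 i hi, hσ i hi])
            have h7 : σ (σ0 x) = x := h6
            rw [h3, map_neg] at h7
            have h8 : σ x = -x := neg_eq_iff_eq_neg.1 h7
            rw [map_mul, h5, h8, neg_mul_neg])
      have haJ : a ∉ J := fun h => ha (hJ h)
      refine ⟨insert a J, Finset.insert_subset_insert _ hJ, fun σ => ?_⟩
      rw [Finset.prod_insert haJ, ← mul_assoc]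
      exact e σ

/-- Independent square roots. -/
theorem exists_flip (h2 : (2 : Ω) ≠ 0) (s : I → Ω) {d : I → F} (hd : ∀ i, s i ^ 2 = algebraMap F Ω (d i))
    (hs0 : ∀ i, s i ≠ 0) {T : Finset I} {a : I} (ha : a ∉ T)
    (hsq : ∀ J ⊆ insert a T, J.Nonempty → ¬ IsSquare (∏ i ∈ J, d i)) :
    ∃ g : Ω ≃ₐ[F] Ω, (∀ i ∈ T, g (s i) = s i) ∧ g (s a) = - s a := by
  have hs : ∀ i (σ : Ω ≃ₐ[F] Ω), σ (s i) = s i ∨ σ (s i) = - s i := by
    intro i σ
    apply sq_eq_sq_iff_eq_or_eq_neg.1
    rw [← map_pow, hd, σ.commutes]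
  by_contra hcon
  push Not at hcon
  obtain ⟨J, hJ, e⟩ := fixed_prod s hs T (s a) (hs a) (fun σ hσ =>
    (hs a σ).resolve_right (hcon σ hσ))
  have haJ : a ∉ J := fun h => ha (hJ h)
  have h3 : s a * ∏ i ∈ J, s i ∈ Set.range (algebraMap F Ω) := by
    rw [InfiniteGalois.mem_range_algebraMap_iff_fixed]
    exact e
  obtain ⟨w, hw⟩ := h3
  refine hsq (insert a J) (Finset.insert_subset_insert _ hJ) (Finset.insert_nonempty _ _) ⟨w, ?_⟩
  apply (algebraMap F Ω).injective
  rw [← Finset.prod_insert haJ] at hw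
  rw [map_mul, hw, map_prod, ← pow_two, ← Finset.prod_pow]
  exact Finset.prod_congr rfl fun i _ => (hd i).symm

end signs

section base

variable {K F : Type} [Field K] [Field F] [Algebra K F] {k' : Type} [Field k'] [Algebra k'[X] F]
  [IsFractionRing k'[X] F] {W : WeierstrassCurve K}

theorem fx_bot (σ : Sep F ≃ₐ[F] Sep F) : Fx (⊥ : IntermediateField K (Sep F)) σ := by
  intro x hx
  obtain ⟨y, rfl⟩ := IntermediateField.mem_bot.1 hx
  rw [IsScalarTower.algebraMap_apply K F (Sep F)]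
  exact σ.commutes _

theorem exists_emb (M : Type) [Field M] [Algebra F M] : Nonempty (Sep F →ₐ[F] Sep M) :=
  ⟨IsSepClosed.lift⟩

theorem base (h : TateAtTwo (F := F) k' W) : TateOver (F := F) k' W ⊥ := by
  intro c hc hloc hinv
  have h1 : IsTC W c := ⟨fun n => ⟨(hc.coc n).lc, fun σ τ => (hc.coc n).mul σ τ (fx_bot σ) (fx_bot τ)⟩,
    fun σ => hc.zero σ (fx_bot σ), fun n σ => hc.two n σ (fx_bot σ)⟩
  have h2 : ∀ n, LocallyTrivial k' W (c n) := by
    intro n
    refine ⟨fun v => ?_, ?_⟩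
    · obtain ⟨ι⟩ := exists_emb (F := F) (Comp k'[X] F v)
      obtain ⟨P, hP⟩ := (hloc n).1 v ι
      exact ⟨ι, P, fun τ σ h => hP τ σ (fx_bot σ) h⟩
    · obtain ⟨ι⟩ := exists_emb (F := F) (CompInf k' F)
      obtain ⟨P, hP⟩ := (hloc n).2 ι
      exact ⟨ι, P, fun τ σ h => hP τ σ (fx_bot σ) h⟩
  have h3 : IsInv W c := by
    intro τ
    obtain ⟨m, Q, hQ, e⟩ := hinv τ (fun x hx => by
      obtain ⟨y, rfl⟩ := IntermediateField.mem_bot.1 hx
      exact τ.commutes _)
    exact ⟨m, Q, hQ, fun n σ σ' hq => e n σ σ' (fx_bot σ) hq⟩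
  refine ⟨0, fun n => ?_⟩
  obtain ⟨P, R, e1, e2⟩ := h c h1 h2 h3 n
  refine ⟨act W (Algebra.ofId K (⊥ : IntermediateField K (Sep F))) P, R, ?_, fun σ _ => ?_⟩
  · rw [e1, act_act]
    congr 2
  · rw [pow_zero, one_smul]
    exact e2 σ

end base

end Pool.Agent.H571.BC
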