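import Pool.Agent.H571.BC.Des
import Pool.Agent.TH115.ID.Defs
import Pool.Agent.Y700.VC

/-!
The isomorphism of an elliptic curve `y ^ 2 = x (x ^ 2 + A x + B)` with its quadratic twist by `D`, over
a field which contains a square root of `D`.
-/

set_option autoImplicit false
set_option linter.all false

open WeierstrassCurve WeierstrassCurve.Affine
open scoped Classical

namespace Pool.Agent.H571.BC

open Pool.Agent.TH115.GD
open Pool.Agent.Y700 (VR)

universe u

section tw

variable {K : Type u} [Field K] {A B D : K}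

theorem vrT {M : Type u} [Field M] [Algebra K M] (hD : D ≠ 0) {u : M}
    (hu : u ^ 2 = algebraMap K M D) :
    VR ((crvT (A * D) (B * D ^ 2)).baseChange M) ((crvT A B).baseChange M) u 0 0 0 := by
  have h0 : u ≠ 0 := by
    rintro rfl
    rw [zero_pow two_ne_zero] at hu
    exact hD ((map_eq_zero _).1 hu.symm)
  have e1 : ((crvT (A * D) (B * D ^ 2)).baseChange M).a₁ = 0 := map_zero (algebraMap K M)
  have e2 : ((crvT (A * D) (B * D ^ 2)).baseChange M).a₂ =
    algebraMap K M A * algebraMap K M D := map_mul (algebraMap K M) _ _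
  have e3 : ((crvT (A * D) (B * D ^ 2)).baseChange M).a₃ = 0 := map_zero (algebraMap K M)
  have e4 : ((crvT (A * D) (B * D ^ 2)).baseChange M).a₄ =
    algebraMap K M B * algebraMap K M D ^ 2 := by
    rw [← map_pow, ← map_mul]
    rfl
  have e6 : ((crvT (A * D) (B * D ^ 2)).baseChange M).a₆ = 0 := map_zero (algebraMap K M)
  have f1 : ((crvT A B).baseChange M).a₁ = 0 := map_zero (algebraMap K M)
  have f2 : ((crvT A B).baseChange M).a₂ = algebraMap K M A := rfl
  have f3 : ((crvT A B).baseChange M).a₃ = 0 := map_zero (algebraMap K M)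
  have f4 : ((crvT A B).baseChange M).a₄ = algebraMap K M B := rfl
  have f6 : ((crvT A B).baseChange M).a₆ = 0 := map_zero (algebraMap K M)
  refine ⟨h0, ?_, ?_, ?_, ?_, ?_⟩
  · rw [e1, f1]; ring
  · rw [e1, e2, f2, hu]; ring
  · rw [e1, e3, f3]; ring
  · rw [e1, e2, e3, e4, f4, ← hu]; ring
  · rw [e1, e2, e3, e4, e6, f6]; ring

theorem disc_ne {M : Type u} [Field M] [Algebra K M] (h : (crvT A B).Δ ≠ 0) :
    ((crvT A B).baseChange M).Δ ≠ 0 := by
  have h1 : ((crvT A B).baseChange M).Δ = algebraMap K M (crvT A B).Δ :=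
    WeierstrassCurve.map_Δ _ _
  rw [h1]
  exact (map_ne_zero _).2 h

variable (hD : D ≠ 0) (hΔ : (crvT A B).Δ ≠ 0)

/-- the isomorphism of a curve with its twist, given by a square root `u` of `D` -/
noncomputable def tw {M : Type u} [Field M] [Algebra K M] (hD : D ≠ 0) (hΔ : (crvT A B).Δ ≠ 0)
    {u : M} (hu : u ^ 2 = algebraMap K M D) : Pt (crvT A B) M ≃+ Pt (crvT (A * D) (B * D ^ 2)) M :=
  (vrT hD hu).equiv (disc_ne hΔ)

theorem pt_ext {M : Type u} [Field M] {W : WeierstrassCurve.Affine M} {x y x' y' : M}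
    (h : W.Nonsingular x y) (h' : W.Nonsingular x' y') (hx : x = x') (hy : y = y') :
    (.some x y h : W.Point) = .some x' y' h' := by
  subst hx hy
  rfl

theorem tw_act {M M' : Type u} [Field M] [Algebra K M] [Field M'] [Algebra K M'] (φ : M →ₐ[K] M')
    {u : M} (hu : u ^ 2 = algebraMap K M D) {u' : M'} (hu' : u' ^ 2 = algebraMap K M' D)
    (h : φ u = u') (P : Pt (crvT A B) M) :
    act (crvT (A * D) (B * D ^ 2)) φ (tw hD hΔ hu P) = tw hD hΔ hu' (act (crvT A B) φ P) := by
  subst h
  rcases P with _ | ⟨x, y, hxy⟩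
  · rfl
  · refine pt_ext _ _ ?_ ?_
    · rw [map_add, map_mul, map_pow, map_zero]
    · rw [map_add, map_add, map_mul, map_mul, map_mul, map_pow, map_pow, map_zero]

theorem tw_neg {M : Type u} [Field M] [Algebra K M] {u u' : M} (hu : u ^ 2 = algebraMap K M D)
    (hu' : u' ^ 2 = algebraMap K M D) (h : u' = -u) (P : Pt (crvT A B) M) :
    tw hD hΔ hu' P = - tw hD hΔ hu P := by
  subst h
  rcases P with _ | ⟨x, y, hxy⟩
  · rfl
  · refine pt_ext _ _ ?_ ?_
    · ring
    · have e1 : ((crvT (A * D) (B * D ^ 2)).baseChange M).a₁ = 0 := map_zero (algebraMap K M)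
      have e3 : ((crvT (A * D) (B * D ^ 2)).baseChange M).a₃ = 0 := map_zero (algebraMap K M)
      show (-u) ^ 3 * y + (-u) ^ 2 * 0 * x + 0 = - (u ^ 3 * y + u ^ 2 * 0 * x + 0) -
        ((crvT (A * D) (B * D ^ 2)).baseChange M).a₁ * (u ^ 2 * x + 0) -
        ((crvT (A * D) (B * D ^ 2)).baseChange M).a₃
      rw [e1, e3]
      ring

end tw

end Pool.Agent.H571.BC
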